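import Mathlib

set_option autoImplicit false

/-!
Partially commutative metabelian groups, universal sentences in the language of groups and
decidability of the universal theory of a group.
-/

namespace Pool.Agent.LibPCM

/-- The relators of the partially commutative metabelian group of the graph `Γ`: the commutators
`[x_i, x_j]` for the edges of `Γ`, and all elements of the second derived subgroup of the free
group on the vertices. -/
def relators {V : Type} (Γ : SimpleGraph V) : Set (FreeGroup V) :=
  {r | ∃ i j, Γ.Adj i j ∧
      r = FreeGroup.of i * FreeGroup.of j * (FreeGroup.of i)⁻¹ * (FreeGroup.of j)⁻¹} ∪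
    (derivedSeries (FreeGroup V) 2 : Set (FreeGroup V))

/-- The partially commutative metabelian group `S_Γ`. -/
abbrev PCMetabelian {V : Type} (Γ : SimpleGraph V) : Type := PresentedGroup (relators Γ)

/-- Terms of the language of groups in the variables `y_0, y_1, ...`. -/
inductive Term where
  | var : ℕ → Term
  | one : Term
  | mul : Term → Term → Term
  | inv : Term → Term

/-- The value of a term under an assignment of the variables. -/
def Term.eval {G : Type} [Group G] (v : ℕ → G) : Term → G
  | Term.var n => v n
  | Term.one => 1
  | Term.mul s t => s.eval v * t.eval v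
  | Term.inv t => (t.eval v)⁻¹

/-- Quantifier-free formulas of the language of groups. -/
inductive QF where
  | eq : Term → Term → QF
  | neg : QF → QF
  | and : QF → QF → QF

/-- Truth of a quantifier-free formula under an assignment of the variables. -/
def QF.Holds {G : Type} [Group G] (v : ℕ → G) : QF → Prop
  | QF.eq s t => s.eval v = t.eval v
  | QF.neg φ => ¬ φ.Holds v
  | QF.and φ ψ => φ.Holds v ∧ ψ.Holds v

/-- The universal sentence obtained by universally quantifying all variables of `φ` is true
in `G`. -/
def UniversallyTrue (G : Type) [Group G] (φ : QF) : Prop := ∀ v : ℕ → G, φ.Holds v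

/-- Goedel number of a term. -/
def Term.code : Term → ℕ
  | Term.var n => Nat.pair 0 n
  | Term.one => Nat.pair 1 0
  | Term.mul s t => Nat.pair 2 (Nat.pair s.code t.code)
  | Term.inv t => Nat.pair 3 t.code

/-- Goedel number of a quantifier-free formula. -/
def QF.code : QF → ℕ
  | QF.eq s t => Nat.pair 0 (Nat.pair s.code t.code)
  | QF.neg φ => Nat.pair 1 φ.code
  | QF.and φ ψ => Nat.pair 2 (Nat.pair φ.code ψ.code)

/-- The universal theory of `G` is decidable: a computable function decides, given the Goedel
number of the matrix of a universal sentence, whether the sentence holds in `G`. -/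
def UniversalTheoryDecidable (G : Type) [Group G] : Prop :=
  ∃ d : ℕ → Bool, Computable d ∧ ∀ φ : QF, d φ.code = true ↔ UniversallyTrue G φ

/-- The disjoint union of two paths with three vertices: `0 - 1 - 2` and `3 - 4 - 5`. -/
def twoPaths : SimpleGraph (Fin 6) where
  Adj i j := (i.val + 1 = j.val ∨ j.val + 1 = i.val) ∧ (i.val < 3 ↔ j.val < 3)
  symm := ⟨fun _ _ h => ⟨h.1.symm, h.2.symm⟩⟩
  loopless := ⟨fun _ h => by rcases h.1 with h | h <;> omega⟩

end Pool.Agent.LibPCM
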