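import Mathlib

set_option autoImplicit false

/-!
Elementary facts on the integral group ring of an abelian group `H`, written additively.
-/

namespace Pool.Agent.LibPCM

open AddMonoidAlgebra

/-- The integral group ring. -/
abbrev R (H : Type) [AddCommGroup H] := AddMonoidAlgebra ℤ H

section

variable {H : Type} [AddCommGroup H]

/-- The group element `h` in the group ring. -/
noncomputable def T (h : H) : R H := single h 1

theorem T_add (h k : H) : T (h + k) = T h * T k := by
  simp [T, single_mul_single]

@[simp] theorem T_zero : T (0 : H) = 1 := rfl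

theorem T_neg_mul (h : H) : T (-h) * T h = 1 := by
  rw [← T_add, neg_add_cancel, T_zero]

theorem T_mul_coeff (h x : H) (f : R H) : (T h * f).coeff x = f.coeff (x - h) := by
  rw [T, coeff_single_mul_apply, one_mul, neg_add_eq_sub]

/-- The augmentation. -/
noncomputable def aug : R H →+* ℤ := (AddMonoidAlgebra.lift ℤ ℤ H 1).toRingHom

@[simp] theorem aug_single (h : H) (r : ℤ) : aug (single h r) = r := by
  simp [aug]

@[simp] theorem aug_T (h : H) : aug (T h) = 1 := by simp [T]

/-- invariance under translation -/
theorem coeff_invariant {h : H} {f : R H} (hf : (T h - 1) * f = 0) (x : H) :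
    f.coeff (x + h) = f.coeff x := by
  have h1 : T h * f = f := by
    have : (T h - 1) * f = T h * f - f := by ring
    rw [this] at hf
    exact sub_eq_zero.1 hf
  have h2 := T_mul_coeff h (x + h) f
  rw [h1, add_sub_cancel_right] at h2
  exact h2

theorem coeff_invariant_nsmul {h : H} {f : R H} (hf : (T h - 1) * f = 0) (x : H) (n : ℕ) :
    f.coeff (x + n • h) = f.coeff x := by
  induction n with
  | zero => simp
  | succ n ih => rw [succ_nsmul, ← add_assoc, coeff_invariant hf, ih]

/-- `T h - 1` is not a zero divisor if `h` has infinite order -/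
theorem eq_zero_of_infinite {h : H} (hh : addOrderOf h = 0) {f : R H}
    (hf : (T h - 1) * f = 0) : f = 0 := by
  by_contra hne
  have : f.coeff ≠ 0 := fun h0 => hne (coeff_eq_zero.1 h0)
  obtain ⟨x, hx⟩ := Finsupp.ne_iff.1 this
  have hinj : Function.Injective fun n : ℕ => x + n • h := by
    intro a b hab
    have h1 : a • h = b • h := add_left_cancel hab
    exact (injective_nsmul_iff_not_isOfFinAddOrder.2 (addOrderOf_eq_zero_iff.1 hh)) h1
  have hsub : Set.range (fun n : ℕ => x + n • h) ⊆ (f.coeff.support : Set H) := by
    rintro _ ⟨n, rfl⟩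
    simp only [Finset.mem_coe, Finsupp.mem_support_iff]
    rw [coeff_invariant_nsmul hf]
    exact hx
  exact Set.infinite_range_of_injective hinj ((f.coeff.support.finite_toSet).subset hsub)

/-- the orbit sum -/
noncomputable def orb (h x : H) : R H := ∑ i ∈ Finset.range (addOrderOf h), T (x + i • h)

theorem orb_mul (h x : H) (hh : addOrderOf h ≠ 0) : (T h - 1) * orb h x = 0 := by
  obtain ⟨n, hn⟩ : ∃ n, addOrderOf h = n + 1 := ⟨addOrderOf h - 1, by omega⟩
  have key : ∀ m : ℕ, (T h - 1) * ∑ i ∈ Finset.range m, T (x + i • h) =
      T (x + m • h) - T x := by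
    intro m
    induction m with
    | zero => simp
    | succ m ih =>
      rw [Finset.sum_range_succ, mul_add, ih, sub_mul, one_mul, ← T_add]
      have : h + (x + m • h) = x + (m + 1) • h := by rw [succ_nsmul]; abel
      rw [this]
      abel
  rw [orb, key, addOrderOf_nsmul_eq_zero, add_zero, sub_self]

theorem aug_orb (h x : H) : aug (orb h x) = (addOrderOf h : ℤ) := by
  simp [orb]

/-- The augmentation of an invariant element is divisible by the order. -/
theorem order_dvd_aug {h : H} : ∀ (n : ℕ) (f : R H), f.coeff.support.card ≤ n →
    (T h - 1) * f = 0 → (addOrderOf h : ℤ) ∣ aug f := by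
  classical
  intro n
  induction n with
  | zero =>
    intro f hcard _
    have : f.coeff = 0 := by simpa using hcard
    rw [coeff_eq_zero.1 this]
    simp
  | succ n ih =>
    intro f hcard hf
    by_cases hh : addOrderOf h = 0
    · rw [eq_zero_of_infinite hh hf]; simp
    by_cases hne : f = 0
    · rw [hne]; simp
    have : f.coeff ≠ 0 := fun h0 => hne (coeff_eq_zero.1 h0)
    obtain ⟨x, hx⟩ := Finsupp.ne_iff.1 this
    set c := f.coeff x with hc
    have hc0 : c ≠ 0 := hx
    set g : R H := f - c • orb h x with hg
    have hgT : (T h - 1) * g = 0 := by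
      rw [hg, mul_sub, hf, mul_smul_comm, orb_mul h x hh, smul_zero, sub_zero]
    have horb : ∀ y, (orb h x).coeff y = ∑ i ∈ Finset.range (addOrderOf h),
        if x + i • h = y then 1 else 0 := by
      intro y
      rw [orb, coeff_sum, Finsupp.finsetSum_apply]
      apply Finset.sum_congr rfl
      intro i _
      rw [T, coeff_single, Finsupp.single_apply]
    have hsub : g.coeff.support ⊆ f.coeff.support.erase x := by
      intro y hy
      rw [Finsupp.mem_support_iff, hg, coeff_sub, Finsupp.sub_apply, coeff_smul,
        Finsupp.smul_apply, horb] at hy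
      rw [Finset.mem_erase]
      constructor
      · rintro rfl
        apply hy
        have : ∑ i ∈ Finset.range (addOrderOf h), (if y + i • h = y then (1 : ℤ) else 0) = 1 := by
          rw [Finset.sum_eq_single 0]
          · simp
          · intro i hi hi0
            rw [if_neg]
            intro hcon
            have h1 : i • h = 0 := by simpa using hcon
            have h2 := addOrderOf_dvd_of_nsmul_eq_zero h1
            have h3 := Nat.le_of_dvd (Nat.pos_of_ne_zero hi0) h2
            have h4 := Finset.mem_range.1 hi
            omega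
          · intro h0
            simp only [Finset.mem_range] at h0
            omega
        rw [this, ← hc]
        simp
      · rw [Finsupp.mem_support_iff]
        intro hy0
        apply hy
        rw [hy0]
        have : ∑ i ∈ Finset.range (addOrderOf h), (if x + i • h = y then (1 : ℤ) else 0) = 0 := by
          apply Finset.sum_eq_zero
          intro i _
          rw [if_neg]
          rintro rfl
          rw [coeff_invariant_nsmul hf] at hy0
          exact hc0 hy0
        rw [this]
        simp
    have hcard' : g.coeff.support.card ≤ n := by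
      have h1 := Finset.card_le_card hsub
      have h2 : x ∈ f.coeff.support := Finsupp.mem_support_iff.2 hc0
      rw [Finset.card_erase_of_mem h2] at h1
      omega
    have h1 := ih g hcard' hgT
    have h2 : aug f = aug g + c * (addOrderOf h : ℤ) := by
      rw [hg, map_sub, map_zsmul, aug_orb]
      simp
    rw [h2]
    exact dvd_add h1 (Dvd.intro_left _ rfl)

/-- An element of augmentation `-1` is invariant only under `0`. -/
theorem eq_zero_of_aug {h : H} {f : R H} (haug : aug f = -1) (hf : (T h - 1) * f = 0) :
    h = 0 := by
  have h1 := order_dvd_aug _ f le_rfl hf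
  rw [haug] at h1
  have h2 : (addOrderOf h : ℤ) ∣ 1 := by simpa using h1
  have h3 : addOrderOf h = 1 := by
    have := Int.natCast_dvd_natCast.1 (by simpa using h2 : ((addOrderOf h : ℕ) : ℤ) ∣ ((1 : ℕ) : ℤ))
    exact Nat.dvd_one.1 this
  exact AddMonoid.addOrderOf_eq_one_iff.1 h3

/-- multiples -/
theorem T_sub_one_dvd_zsmul (h : H) (k : ℤ) : (T h - 1) ∣ (T (k • h) - 1) := by
  have hnat : ∀ n : ℕ, (T h - 1) ∣ (T (n • h) - 1) := by
    intro n
    induction n with
    | zero => simp
    | succ n ih =>
      have : T ((n + 1) • h) - 1 = T (n • h) * (T h - 1) + (T (n • h) - 1) := by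
        rw [succ_nsmul, T_add]; ring
      rw [this]
      exact dvd_add (Dvd.intro_left _ rfl) ih
  rcases k with n | n
  · simpa using hnat n
  · have h1 := hnat (n + 1)
    have h2 : T (Int.negSucc n • h) - 1 = - T (Int.negSucc n • h) * (T ((n + 1) • h) - 1) := by
      have h3 : T (Int.negSucc n • h) * T ((n + 1) • h) = 1 := by
        rw [← T_add, negSucc_zsmul, neg_add_cancel, T_zero]
      linear_combination h3
    rw [h2]
    exact h1.mul_left _

/-- pushing forward along a homomorphism -/
noncomputable def push {H' : Type} [AddCommGroup H'] (π : H →+ H') : R H →+* R H' :=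
  AddMonoidAlgebra.mapDomainRingHom ℤ π

@[simp] theorem push_single {H' : Type} [AddCommGroup H'] (π : H →+ H') (h : H) (r : ℤ) :
    push π (single h r) = single (π h) r := by
  simp [push]

@[simp] theorem push_T {H' : Type} [AddCommGroup H'] (π : H →+ H') (h : H) :
    push π (T h) = T (π h) := by
  simp [T]

@[simp] theorem aug_push {H' : Type} [AddCommGroup H'] (π : H →+ H') (f : R H) :
    aug (push π f) = aug f := by
  induction f using AddMonoidAlgebra.induction_linear with
  | zero => simp
  | add x y hx hy => rw [map_add, map_add, map_add, hx, hy]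
  | single h r => simp

/-- The kernel of the push forward along a homomorphism with cyclic kernel. -/
theorem exists_mul_of_push_eq_zero {H' : Type} [AddCommGroup H'] (π : H →+ H') (h0 : H)
    (hker : ∀ x, π x = 0 → ∃ k : ℤ, x = k • h0) {f : R H} (hf : push π f = 0) :
    ∃ g, f = (T h0 - 1) * g := by
  classical
  let s : H' → H := Function.invFun π
  have hs : ∀ x, ∃ k : ℤ, x = k • h0 + s (π x) := by
    intro x
    have h1 : π (s (π x)) = π x := Function.invFun_eq ⟨x, rfl⟩
    obtain ⟨k, hk⟩ := hker (x - s (π x)) (by rw [map_sub, h1, sub_self])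
    exact ⟨k, by rw [← hk]; abel⟩
  have key : ∀ f : R H, ∃ g, f - mapDomain (fun y => s y) (push π f) = (T h0 - 1) * g := by
    intro f
    induction f using AddMonoidAlgebra.induction_linear with
    | zero => exact ⟨0, by simp⟩
    | add x y hx hy =>
      obtain ⟨g1, hg1⟩ := hx
      obtain ⟨g2, hg2⟩ := hy
      refine ⟨g1 + g2, ?_⟩
      rw [map_add, mapDomain_add, mul_add, ← hg1, ← hg2]
      abel
    | single x r =>
      obtain ⟨k, hk⟩ := hs x
      obtain ⟨c, hc⟩ := T_sub_one_dvd_zsmul h0 k
      refine ⟨c * single (s (π x)) r, ?_⟩
      rw [push_single, mapDomain_single, ← mul_assoc, ← hc, sub_mul, one_mul]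
      congr 1
      rw [T, single_mul_single, one_mul, ← hk]
  obtain ⟨g, hg⟩ := key f
  rw [hf, mapDomain_zero, sub_zero] at hg
  exact ⟨g, hg⟩

end

/-! ### Derivatives at the augmentation -/

section deriv

variable {H : Type} [AddCommGroup H]

/-- the derivative at the augmentation in the direction of the linear form `ℓ` -/
noncomputable def der (ℓ : H →+ ℤ) : R H →+ ℤ where
  toFun f := f.coeff.sum fun h r => r * ℓ h
  map_zero' := by simp
  map_add' f g := by
    rw [coeff_add]
    exact Finsupp.sum_add_index' (by simp) (by intros; ring)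

@[simp] theorem der_single (ℓ : H →+ ℤ) (h : H) (r : ℤ) : der ℓ (single h r) = r * ℓ h := by
  show (single h r).coeff.sum (fun h r => r * ℓ h) = r * ℓ h
  rw [coeff_single, Finsupp.sum_single_index (by simp)]

theorem der_mul (ℓ : H →+ ℤ) (f g : R H) : der ℓ (f * g) = der ℓ f * aug g + aug f * der ℓ g := by
  induction f using AddMonoidAlgebra.induction_linear with
  | zero => simp
  | add x y hx hy => rw [add_mul, map_add, hx, hy, map_add, map_add]; ring
  | single h r =>
    induction g using AddMonoidAlgebra.induction_linear with
    | zero => simp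
    | add x y hx hy => rw [mul_add, map_add, hx, hy, map_add, map_add]; ring
    | single k s =>
      rw [single_mul_single, der_single, der_single, der_single, aug_single, aug_single, map_add]
      ring

@[simp] theorem der_T (ℓ : H →+ ℤ) (h : H) : der ℓ (T h) = ℓ h := by simp [T]

@[simp] theorem der_one (ℓ : H →+ ℤ) : der ℓ (1 : R H) = 0 := by
  rw [← T_zero, der_T, map_zero]

end deriv

end Pool.Agent.LibPCM
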