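import Mathlib
import Pool.Agent.LibPCM.Defs
import Pool.Agent.LibPCM.GroupRing

set_option autoImplicit false

/-!
The affine group `ℤ[H] ⋊ H`, the Heisenberg group, and homomorphisms from partially commutative
metabelian groups.
-/

namespace Pool.Agent.LibPCM

open scoped commutatorElement

/-! ### The affine group -/

/-- The group `ℤ[H] ⋊ H`. -/
@[ext] structure Aff (H : Type) [AddCommGroup H] where
  f : R H
  h : H

namespace Aff

variable {H : Type} [AddCommGroup H]

noncomputable instance : Mul (Aff H) := ⟨fun a b => ⟨a.f + T a.h * b.f, a.h + b.h⟩⟩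
noncomputable instance : One (Aff H) := ⟨⟨0, 0⟩⟩
noncomputable instance : Inv (Aff H) := ⟨fun a => ⟨-(T (-a.h) * a.f), -a.h⟩⟩

@[simp] theorem mul_f (a b : Aff H) : (a * b).f = a.f + T a.h * b.f := rfl
@[simp] theorem mul_h (a b : Aff H) : (a * b).h = a.h + b.h := rfl
@[simp] theorem one_f : (1 : Aff H).f = 0 := rfl
@[simp] theorem one_h : (1 : Aff H).h = 0 := rfl
@[simp] theorem inv_f (a : Aff H) : (a⁻¹).f = -(T (-a.h) * a.f) := rfl
@[simp] theorem inv_h (a : Aff H) : (a⁻¹).h = -a.h := rfl

noncomputable instance : Group (Aff H) where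
  mul_assoc a b c := by
    ext1
    · simp only [mul_f, mul_h, T_add]; ring
    · simp only [mul_h]; abel
  one_mul a := by
    ext1
    · simp only [mul_f, one_f, one_h, T_zero, one_mul, zero_add]
    · simp only [mul_h, one_h, zero_add]
  mul_one a := by
    ext1
    · simp only [mul_f, one_f, mul_zero, add_zero]
    · simp only [mul_h, one_h, add_zero]
  inv_mul_cancel a := by
    ext1
    · simp only [mul_f, inv_f, inv_h, one_f]; ring
    · simp only [mul_h, inv_h, one_h, neg_add_cancel]

/-- the translation part as a homomorphism -/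
def hHom : Aff H →* Multiplicative H where
  toFun a := Multiplicative.ofAdd a.h
  map_one' := rfl
  map_mul' _ _ := rfl

theorem comm_h (a b : Aff H) : ⁅a, b⁆.h = 0 := by
  simp only [commutatorElement_def, mul_h, inv_h]; abel

theorem comm_f (a b : Aff H) : ⁅a, b⁆.f = (T a.h - 1) * b.f - (T b.h - 1) * a.f := by
  have h : a * b = ⁅a, b⁆ * (b * a) := by
    rw [commutatorElement_def]; group
  have h1 := congrArg Aff.f h
  rw [mul_f, mul_f, mul_f, comm_h, T_zero] at h1
  linear_combination -h1

theorem derived_two : derivedSeries (Aff H) 2 = ⊥ := by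
  have h1 : ∀ x ∈ derivedSeries (Aff H) 1, x.h = 0 := by
    intro x hx
    have h2 : derivedSeries (Aff H) 1 ≤ (hHom (H := H)).ker := by
      rw [derivedSeries_one, commutator_def, Subgroup.commutator_le]
      intro a _ b _
      rw [MonoidHom.mem_ker]
      show Multiplicative.ofAdd (⁅a, b⁆.h) = 1
      rw [comm_h]; rfl
    have h3 : Multiplicative.ofAdd x.h = 1 := h2 hx
    exact h3
  rw [derivedSeries_succ, eq_bot_iff, Subgroup.commutator_le]
  intro a ha b hb
  rw [Subgroup.mem_bot]
  ext1
  · rw [comm_f, h1 a ha, h1 b hb]; simp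
  · exact comm_h a b

end Aff

/-! ### The Heisenberg group -/

/-- The integral Heisenberg group. -/
@[ext] structure Heis where
  x : ℤ
  y : ℤ
  z : ℤ

namespace Heis

instance : Mul Heis := ⟨fun a b => ⟨a.x + b.x, a.y + b.y, a.z + b.z + a.x * b.y⟩⟩
instance : One Heis := ⟨⟨0, 0, 0⟩⟩
instance : Inv Heis := ⟨fun a => ⟨-a.x, -a.y, -a.z + a.x * a.y⟩⟩

@[simp] theorem mul_x (a b : Heis) : (a * b).x = a.x + b.x := rfl
@[simp] theorem mul_y (a b : Heis) : (a * b).y = a.y + b.y := rfl
@[simp] theorem mul_z (a b : Heis) : (a * b).z = a.z + b.z + a.x * b.y := rfl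
@[simp] theorem one_x : (1 : Heis).x = 0 := rfl
@[simp] theorem one_y : (1 : Heis).y = 0 := rfl
@[simp] theorem one_z : (1 : Heis).z = 0 := rfl
@[simp] theorem inv_x (a : Heis) : (a⁻¹).x = -a.x := rfl
@[simp] theorem inv_y (a : Heis) : (a⁻¹).y = -a.y := rfl
@[simp] theorem inv_z (a : Heis) : (a⁻¹).z = -a.z + a.x * a.y := rfl

instance : Group Heis where
  mul_assoc a b c := by
    ext1
    · simp only [mul_x]; ring
    · simp only [mul_y]; ring
    · simp only [mul_z, mul_x, mul_y]; ring
  one_mul a := by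
    ext1
    · simp
    · simp
    · simp
  mul_one a := by
    ext1
    · simp
    · simp
    · simp
  inv_mul_cancel a := by
    ext1
    · simp
    · simp
    · simp only [mul_z, inv_z, inv_x, one_z]; ring

theorem comm_eq (a b : Heis) : ⁅a, b⁆ = ⟨0, 0, a.x * b.y - a.y * b.x⟩ := by
  rw [commutatorElement_def]
  ext1
  · simp only [mul_x, inv_x]; ring
  · simp only [mul_y, inv_y]; ring
  · simp only [mul_z, mul_x, inv_x, inv_y, inv_z]; ring

theorem derived_two : derivedSeries Heis 2 = ⊥ := by
  let c : Heis →* Multiplicative (ℤ × ℤ) :=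
    { toFun := fun a => Multiplicative.ofAdd (a.x, a.y)
      map_one' := rfl
      map_mul' := fun _ _ => rfl }
  have h1 : ∀ x ∈ derivedSeries Heis 1, x.x = 0 ∧ x.y = 0 := by
    intro x hx
    have h2 : derivedSeries Heis 1 ≤ c.ker := by
      rw [derivedSeries_one, commutator_def, Subgroup.commutator_le]
      intro a _ b _
      rw [MonoidHom.mem_ker, comm_eq]; rfl
    have h3 : Multiplicative.ofAdd (x.x, x.y) = Multiplicative.ofAdd ((0 : ℤ), (0 : ℤ)) := h2 hx
    have h4 := Multiplicative.ofAdd.injective h3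
    exact ⟨congrArg Prod.fst h4, congrArg Prod.snd h4⟩
  rw [derivedSeries_succ, eq_bot_iff, Subgroup.commutator_le]
  intro a ha b hb
  rw [Subgroup.mem_bot, comm_eq, (h1 a ha).1, (h1 a ha).2]
  simp only [zero_mul, sub_zero]
  rfl

end Heis

/-! ### Homomorphisms from `S_Γ` -/

section hom

variable {V : Type} {Γ : SimpleGraph V} {K : Type} [Group K]

/-- the generator of `S_Γ` -/
def gen (Γ : SimpleGraph V) (i : V) : PCMetabelian Γ := PresentedGroup.of i

theorem lift_relators (hK : derivedSeries K 2 = ⊥) (f : V → K)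
    (hf : ∀ i j, Γ.Adj i j → f i * f j = f j * f i) :
    ∀ r ∈ relators Γ, FreeGroup.lift f r = 1 := by
  rintro r (⟨i, j, hij, rfl⟩ | hr)
  · simp only [map_mul, map_inv, FreeGroup.lift_apply_of]
    rw [hf i j hij]
    group
  · have h1 := map_derivedSeries_le_derivedSeries (FreeGroup.lift f) 2
      (Subgroup.mem_map_of_mem _ hr)
    rw [hK] at h1
    exact h1

/-- The homomorphism from `S_Γ` to a metabelian group given by commuting images. -/
def homOf (hK : derivedSeries K 2 = ⊥) (f : V → K)
    (hf : ∀ i j, Γ.Adj i j → f i * f j = f j * f i) : PCMetabelian Γ →* K :=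
  PresentedGroup.toGroup (lift_relators hK f hf)

@[simp] theorem homOf_gen (hK : derivedSeries K 2 = ⊥) (f : V → K)
    (hf : ∀ i j, Γ.Adj i j → f i * f j = f j * f i) (i : V) :
    homOf hK f hf (gen Γ i) = f i :=
  PresentedGroup.toGroup.of _

theorem hom_ext {φ ψ : PCMetabelian Γ →* K} (h : ∀ i, φ (gen Γ i) = ψ (gen Γ i)) : φ = ψ :=
  PresentedGroup.ext h

theorem gen_comm {i j : V} (h : Γ.Adj i j) : gen Γ i * gen Γ j = gen Γ j * gen Γ i := by
  have h1 : (PresentedGroup.mk (relators Γ))
      (FreeGroup.of i * FreeGroup.of j * (FreeGroup.of i)⁻¹ * (FreeGroup.of j)⁻¹) = 1 :=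
    PresentedGroup.one_of_mem (Or.inl ⟨i, j, h, rfl⟩)
  simp only [map_mul, map_inv] at h1
  have h2 : gen Γ i * gen Γ j * (gen Γ i)⁻¹ * (gen Γ j)⁻¹ = 1 := h1
  exact commutatorElement_eq_one_iff_mul_comm.1 h2

/-- `S_Γ` is metabelian -/
theorem derived_two : derivedSeries (PCMetabelian Γ) 2 = ⊥ := by
  have hsurj : Function.Surjective (PresentedGroup.mk (relators Γ)) :=
    PresentedGroup.mk_surjective _
  rw [← map_derivedSeries_eq hsurj 2, eq_bot_iff]
  rintro _ ⟨r, hr, rfl⟩
  exact PresentedGroup.one_of_mem (Or.inr hr)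

theorem gen_closure : Subgroup.closure (Set.range (gen Γ)) = ⊤ :=
  PresentedGroup.closure_range_of _

end hom

end Pool.Agent.LibPCM
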