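import Mathlib
import Pool.Agent.LibPCM.Aff

set_option autoImplicit false

/-!
Injectivity of the affine representations on the derived subgroup.
-/

namespace Pool.Agent.LibPCM

open scoped commutatorElement

section metab

variable {Q : Type} [Group Q]

/-- elements of the derived subgroup of a metabelian group commute -/
theorem comm_of_mem (hQ : derivedSeries Q 2 = ⊥) {x y : Q} (hx : x ∈ commutator Q)
    (hy : y ∈ commutator Q) : x * y = y * x := by
  have h1 : ⁅x, y⁆ ∈ derivedSeries Q 2 := by
    rw [derivedSeries_succ, derivedSeries_one]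
    exact Subgroup.commutator_mem_commutator hx hy
  rw [hQ, Subgroup.mem_bot] at h1
  exact commutatorElement_eq_one_iff_mul_comm.1 h1

theorem comm_mem (x y : Q) : ⁅x, y⁆ ∈ commutator Q := by
  rw [commutator_def]
  exact Subgroup.commutator_mem_commutator (Subgroup.mem_top _) (Subgroup.mem_top _)

/-- the derived subgroup of a metabelian group is a commutative group -/
abbrev derComm (hQ : derivedSeries Q 2 = ⊥) : CommGroup (commutator Q) :=
  { (inferInstance : Group (commutator Q)) with
    mul_comm := fun a b => Subtype.ext (comm_of_mem hQ a.2 b.2) }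

/-- if generators commute then the group is commutative -/
theorem comm_of_gen (S : Set Q) (hS : Subgroup.closure S = ⊤)
    (h : ∀ x ∈ S, ∀ y ∈ S, x * y = y * x) (x y : Q) : x * y = y * x := by
  have h1 : ∀ y ∈ S, ∀ x : Q, x * y = y * x := by
    intro y hy x
    have h2 : Subgroup.closure S ≤ Subgroup.centralizer {y} := by
      rw [Subgroup.closure_le]
      intro z hz
      rw [SetLike.mem_coe, Subgroup.mem_centralizer_iff]
      intro w hw
      rw [Set.mem_singleton_iff.1 hw]
      exact h y hy z hz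
    have h3 : x ∈ Subgroup.centralizer {y} := h2 (hS ▸ Subgroup.mem_top x)
    exact (Subgroup.mem_centralizer_iff.1 h3 y (Set.mem_singleton y)).symm
  have h2 : Subgroup.closure S ≤ Subgroup.centralizer {x} := by
    rw [Subgroup.closure_le]
    intro z hz
    rw [SetLike.mem_coe, Subgroup.mem_centralizer_iff]
    intro w hw
    rw [Set.mem_singleton_iff.1 hw]
    exact h1 z hz x
  have h3 : y ∈ Subgroup.centralizer {x} := h2 (hS ▸ Subgroup.mem_top y)
  exact Subgroup.mem_centralizer_iff.1 h3 x (Set.mem_singleton x)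

/-- a normal subgroup containing the commutators of generators contains the derived subgroup -/
theorem commutator_le_of_gen (S : Set Q) (hS : Subgroup.closure S = ⊤) (L : Subgroup Q)
    [hL : L.Normal] (h : ∀ x ∈ S, ∀ y ∈ S, ⁅x, y⁆ ∈ L) : commutator Q ≤ L := by
  rw [commutator_def, Subgroup.commutator_le]
  intro x _ y _
  have hmk : ∀ z : Q, (z : Q ⧸ L) = 1 ↔ z ∈ L := fun z => QuotientGroup.eq_one_iff z
  rw [← hmk]
  have hcomm : ∀ a b : Q ⧸ L, a * b = b * a := by
    apply comm_of_gen ((QuotientGroup.mk' L) '' S)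
    · rw [← MonoidHom.map_closure, hS, Subgroup.map_top_of_surjective _
        (QuotientGroup.mk'_surjective L)]
    · rintro _ ⟨a, ha, rfl⟩ _ ⟨b, hb, rfl⟩
      have h1 : (⁅a, b⁆ : Q) ∈ L := h a ha b hb
      have h2 : (QuotientGroup.mk' L) ⁅a, b⁆ = 1 := (hmk _).2 h1
      rw [map_commutatorElement] at h2
      exact commutatorElement_eq_one_iff_mul_comm.1 h2
  have h2 : (QuotientGroup.mk' L) ⁅x, y⁆ = 1 := by
    rw [map_commutatorElement]
    exact commutatorElement_eq_one_iff_mul_comm.2 (hcomm _ _)
  exact h2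

end metab

/-- The case of two commuting families. -/
theorem inj_aux {Q : Type} [Group Q] (hQ : derivedSeries Q 2 = ⊥)
    {A B H : Type} [AddCommGroup A] [AddCommGroup B] [AddCommGroup H]
    (p : Multiplicative A →* Q) (q : Multiplicative B →* Q)
    (hgen : p.range ⊔ q.range = ⊤) (Ψ : Q →* Aff H) (i₁ : A →+ H) (i₂ : B →+ H)
    (hinj : ∀ a b a' b', i₁ a + i₂ b = i₁ a' + i₂ b' → a = a' ∧ b = b')
    (hp : ∀ a, Ψ (p (Multiplicative.ofAdd a)) = ⟨T (i₁ a) - 1, i₁ a⟩)
    (hq : ∀ b, Ψ (q (Multiplicative.ofAdd b)) = ⟨0, i₂ b⟩)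
    {n : Q} (hn : n ∈ commutator Q) (hf : (Ψ n).f = 0) : n = 1 := by
  classical
  let _ : CommGroup (commutator Q) := derComm hQ
  let w : A × B → commutator Q := fun i =>
    ⟨⁅p (Multiplicative.ofAdd i.1), q (Multiplicative.ofAdd i.2)⁆, comm_mem _ _⟩
  let Φ : (A × B →₀ ℤ) →+ Additive (commutator Q) :=
    Finsupp.liftAddHom fun i => (zmultiplesHom (Additive (commutator Q))) (Additive.ofMul (w i))
  have hΦ1 : ∀ i (r : ℤ), Φ (Finsupp.single i r) = r • Additive.ofMul (w i) := by
    intro i r
    simp [Φ]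
  have hh0 : ∀ x ∈ commutator Q, (Ψ x).h = 0 := by
    intro x hx
    have h2 : commutator Q ≤ (Aff.hHom.comp Ψ).ker := by
      rw [commutator_def, Subgroup.commutator_le]
      intro a _ b _
      rw [MonoidHom.mem_ker, MonoidHom.comp_apply, map_commutatorElement]
      show Multiplicative.ofAdd (⁅Ψ a, Ψ b⁆.h) = 1
      rw [Aff.comm_h]; rfl
    have h3 : Multiplicative.ofAdd (Ψ x).h = 1 := h2 hx
    exact h3
  let FN : Additive (commutator Q) →+ R H :=
    { toFun := fun x => (Ψ ((Additive.toMul x : commutator Q) : Q)).f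
      map_zero' := by
        show (Ψ ((1 : commutator Q) : Q)).f = 0
        rw [Subgroup.coe_one, map_one]; rfl
      map_add' := by
        intro x y
        show (Ψ (((Additive.toMul x : commutator Q) * (Additive.toMul y : commutator Q) :
          commutator Q) : Q)).f = _
        rw [Subgroup.coe_mul, map_mul, Aff.mul_f, hh0 _ (Additive.toMul x : commutator Q).2,
          T_zero, one_mul] }
  have hFNw : ∀ i, FN (Additive.ofMul (w i)) = - ((T (i₂ i.2) - 1) * (T (i₁ i.1) - 1)) := by
    intro i
    show (Ψ (⁅p (Multiplicative.ofAdd i.1), q (Multiplicative.ofAdd i.2)⁆ : Q)).f = _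
    rw [map_commutatorElement, Aff.comm_f, hp, hq]
    ring
  -- the subgroup generated by the `w i`
  let W : Set Q := Set.range fun i => ((w i : commutator Q) : Q)
  let L : Subgroup Q := Subgroup.closure W
  have hwL : ∀ a b, ⁅p a, q b⁆ ∈ L := fun a b =>
    Subgroup.subset_closure ⟨(Multiplicative.toAdd a, Multiplicative.toAdd b), rfl⟩
  have hpL : ∀ g, ∀ x ∈ L, p g * x * (p g)⁻¹ ∈ L := by
    intro g x hx
    induction hx using Subgroup.closure_induction with
    | mem x hx =>
      obtain ⟨i, rfl⟩ := hx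
      have h1 : p g * ((w i : commutator Q) : Q) * (p g)⁻¹ =
          ⁅p (g * Multiplicative.ofAdd i.1), q (Multiplicative.ofAdd i.2)⁆ *
            ⁅p g, q (Multiplicative.ofAdd i.2)⁆⁻¹ := by
        simp only [w, map_mul, commutatorElement_def]
        group
      rw [h1]
      exact L.mul_mem (hwL _ _) (L.inv_mem (hwL _ _))
    | one => simp
    | mul x y _ _ hx hy =>
      have : p g * (x * y) * (p g)⁻¹ = (p g * x * (p g)⁻¹) * (p g * y * (p g)⁻¹) := by group
      rw [this]
      exact L.mul_mem hx hy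
    | inv x _ hx =>
      have : p g * x⁻¹ * (p g)⁻¹ = (p g * x * (p g)⁻¹)⁻¹ := by group
      rw [this]
      exact L.inv_mem hx
  have hqL : ∀ g, ∀ x ∈ L, q g * x * (q g)⁻¹ ∈ L := by
    intro g x hx
    induction hx using Subgroup.closure_induction with
    | mem x hx =>
      obtain ⟨i, rfl⟩ := hx
      have h1 : q g * ((w i : commutator Q) : Q) * (q g)⁻¹ =
          ⁅p (Multiplicative.ofAdd i.1), q g⁆⁻¹ *
            ⁅p (Multiplicative.ofAdd i.1), q (g * Multiplicative.ofAdd i.2)⁆ := by
        simp only [w, map_mul, commutatorElement_def]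
        group
      rw [h1]
      exact L.mul_mem (L.inv_mem (hwL _ _)) (hwL _ _)
    | one => simp
    | mul x y _ _ hx hy =>
      have : q g * (x * y) * (q g)⁻¹ = (q g * x * (q g)⁻¹) * (q g * y * (q g)⁻¹) := by group
      rw [this]
      exact L.mul_mem hx hy
    | inv x _ hx =>
      have : q g * x⁻¹ * (q g)⁻¹ = (q g * x * (q g)⁻¹)⁻¹ := by group
      rw [this]
      exact L.inv_mem hx
  have hnorm : ∀ g : Q, ∀ x ∈ L, g * x * g⁻¹ ∈ L := by
    intro g
    have hg : g ∈ Subgroup.closure ((p.range : Set Q) ∪ (q.range : Set Q)) := by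
      rw [Subgroup.closure_union, Subgroup.closure_eq, Subgroup.closure_eq, hgen]
      exact Subgroup.mem_top g
    induction hg using Subgroup.closure_induction'' with
    | mem g hg =>
      rcases hg with ⟨a, rfl⟩ | ⟨a, rfl⟩
      · exact hpL a
      · exact hqL a
    | inv_mem g hg =>
      rcases hg with ⟨a, rfl⟩ | ⟨a, rfl⟩
      · intro x hx
        have := hpL a⁻¹ x hx
        rwa [map_inv] at this
      · intro x hx
        have := hqL a⁻¹ x hx
        rwa [map_inv] at this
    | one => intro x hx; simpa using hx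
    | mul g g' _ _ hg hg' =>
      intro x hx
      have : g * g' * x * (g * g')⁻¹ = g * (g' * x * g'⁻¹) * g⁻¹ := by group
      rw [this]
      exact hg _ (hg' _ hx)
  have : L.Normal := ⟨fun x hx g => hnorm g x hx⟩
  have hNL : commutator Q ≤ L := by
    apply commutator_le_of_gen ((p.range : Set Q) ∪ (q.range : Set Q))
    · rw [Subgroup.closure_union, Subgroup.closure_eq, Subgroup.closure_eq, hgen]
    · rintro _ (⟨a, rfl⟩ | ⟨a, rfl⟩) _ (⟨b, rfl⟩ | ⟨b, rfl⟩)
      · rw [← map_commutatorElement]
        have : ⁅a, b⁆ = 1 := commutatorElement_eq_one_iff_mul_comm.2 (mul_comm _ _)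
        rw [this, map_one]
        exact L.one_mem
      · exact hwL a b
      · rw [← commutatorElement_inv]
        exact L.inv_mem (hwL b a)
      · rw [← map_commutatorElement]
        have : ⁅a, b⁆ = 1 := commutatorElement_eq_one_iff_mul_comm.2 (mul_comm _ _)
        rw [this, map_one]
        exact L.one_mem
  have hΦsurj : ∀ x ∈ L, ∃ s, ((Additive.toMul (Φ s) : commutator Q) : Q) = x := by
    intro x hx
    induction hx using Subgroup.closure_induction with
    | mem x hx =>
      obtain ⟨i, rfl⟩ := hx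
      exact ⟨Finsupp.single i 1, by rw [hΦ1, one_smul]; rfl⟩
    | one => exact ⟨0, by rw [map_zero]; rfl⟩
    | mul x y _ _ hx hy =>
      obtain ⟨s, hs⟩ := hx
      obtain ⟨t, ht⟩ := hy
      exact ⟨s + t, by rw [map_add, ← hs, ← ht]; rfl⟩
    | inv x _ hx =>
      obtain ⟨s, hs⟩ := hx
      exact ⟨-s, by rw [map_neg, ← hs]; rfl⟩
  obtain ⟨s, hs⟩ := hΦsurj n (hNL hn)
  have hFΦ : FN (Φ s) = s.sum fun i r => r • (-((T (i₂ i.2) - 1) * (T (i₁ i.1) - 1))) := by
    have : FN.comp Φ = Finsupp.liftAddHom fun i =>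
        (zmultiplesHom (R H)) (-((T (i₂ i.2) - 1) * (T (i₁ i.1) - 1))) := by
      ext i : 2
      simp [hΦ1, hFNw]
    have h2 := DFunLike.congr_fun this s
    rw [AddMonoidHom.comp_apply] at h2
    rw [h2, Finsupp.liftAddHom_apply]
    rfl
  have hFs : FN (Φ s) = 0 := by
    show (Ψ ((Additive.toMul (Φ s) : commutator Q) : Q)).f = 0
    rw [hs]
    exact hf
  -- coefficients
  have hcoeff : ∀ a b, a ≠ 0 → b ≠ 0 → s (a, b) = 0 := by
    intro a b ha hb
    have h1 := congrArg (fun f : R H => f.coeff (i₁ a + i₂ b)) (hFΦ.symm.trans hFs)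
    simp only [AddMonoidAlgebra.coeff_zero, Finsupp.coe_zero, Pi.zero_apply] at h1
    have h2 : ∀ i : A × B, (-((T (i₂ i.2) - 1) * (T (i₁ i.1) - 1)) : R H).coeff (i₁ a + i₂ b)
        = if i = (a, b) then -1 else 0 := by
      intro i
      have e1 : (-((T (i₂ i.2) - 1) * (T (i₁ i.1) - 1)) : R H)
          = - T (i₁ i.1 + i₂ i.2) + T (i₂ i.2) + T (i₁ i.1) - T 0 := by
        rw [T_add, T_zero]; ring
      rw [e1]
      have c1 : ∀ x : H, (T x : R H).coeff (i₁ a + i₂ b) = if x = i₁ a + i₂ b then 1 else 0 := by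
        intro x
        rw [T, AddMonoidAlgebra.coeff_single, Finsupp.single_apply]
      rw [AddMonoidAlgebra.coeff_sub, AddMonoidAlgebra.coeff_add, AddMonoidAlgebra.coeff_add,
        AddMonoidAlgebra.coeff_neg, Finsupp.sub_apply, Finsupp.add_apply, Finsupp.add_apply,
        Finsupp.neg_apply, c1, c1, c1, c1]
      have n1 : ¬ i₂ i.2 = i₁ a + i₂ b := by
        intro h
        have := hinj 0 i.2 a b (by rw [map_zero, zero_add]; exact h)
        exact ha this.1.symm
      have n2 : ¬ i₁ i.1 = i₁ a + i₂ b := by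
        intro h
        have := hinj i.1 0 a b (by rw [map_zero, add_zero]; exact h)
        exact hb this.2.symm
      have n3 : ¬ (0 : H) = i₁ a + i₂ b := by
        intro h
        have := hinj 0 0 a b (by rw [map_zero, map_zero, add_zero]; exact h)
        exact ha this.1.symm
      rw [if_neg n1, if_neg n2, if_neg n3]
      by_cases hi : i = (a, b)
      · subst hi
        simp
      · rw [if_neg hi, if_neg]
        · simp
        · intro h
          have := hinj _ _ _ _ h
          exact hi (Prod.ext this.1 this.2)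
    rw [Finsupp.sum, AddMonoidAlgebra.coeff_sum, Finsupp.finsetSum_apply] at h1
    have h3 : ∀ i ∈ s.support, (s i • (-((T (i₂ i.2) - 1) * (T (i₁ i.1) - 1)) : R H)).coeff
        (i₁ a + i₂ b) = if i = (a, b) then -(s i) else 0 := by
      intro i _
      rw [AddMonoidAlgebra.coeff_smul, Finsupp.smul_apply, h2]
      split_ifs <;> simp
    rw [Finset.sum_congr rfl h3, Finset.sum_ite_eq'] at h1
    by_cases hmem : (a, b) ∈ s.support
    · rw [if_pos hmem] at h1
      simpa using h1
    · simpa using hmem
  have hΦ0 : Φ s = 0 := by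
    have h1 : Φ s = s.sum fun i r => r • Additive.ofMul (w i) := by
      rw [Finsupp.liftAddHom_apply]
      rfl
    rw [h1]
    apply Finset.sum_eq_zero
    rintro ⟨a, b⟩ hi
    show s (a, b) • Additive.ofMul (w (a, b)) = 0
    by_cases ha : a = 0
    · subst ha
      have : w (0, b) = 1 := by
        apply Subtype.ext
        show ⁅p (Multiplicative.ofAdd (0 : A)), q (Multiplicative.ofAdd b)⁆ = 1
        rw [ofAdd_zero, map_one, commutatorElement_one_left]
      rw [this]
      simp
    by_cases hb : b = 0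
    · subst hb
      have : w (a, 0) = 1 := by
        apply Subtype.ext
        show ⁅p (Multiplicative.ofAdd a), q (Multiplicative.ofAdd (0 : B))⁆ = 1
        rw [ofAdd_zero, map_one, commutatorElement_one_right]
      rw [this]
      simp
    rw [hcoeff a b ha hb, zero_smul]
  rw [← hs, hΦ0]
  rfl

end Pool.Agent.LibPCM
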