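import Mathlib
import Pool.Agent.LibPCM.Inj

set_option autoImplicit false

/-!
The group of the graph `0 - 1 - 2`, `3 - 4 - 5`: three affine representations that are jointly
injective on the derived subgroup.
-/

namespace Pool.Agent.LibPCM

open scoped commutatorElement

/-- the group under study -/
abbrev G : Type := PCMetabelian twoPaths

/-- its abelianization -/
abbrev H0 : Type := Fin 6 → ℤ

/-- the generators -/
abbrev x (i : Fin 6) : G := gen twoPaths i

/-- the basis vectors -/
abbrev E (i : Fin 6) : H0 := Pi.single i 1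

theorem E_ne_apply {i j : Fin 6} (h : j ≠ i) : E i j = 0 := Pi.single_eq_of_ne h 1

theorem E_same_apply (i : Fin 6) : E i i = 1 := Pi.single_eq_same i 1

theorem adj_cases {i j : Fin 6} (h : twoPaths.Adj i j) :
    (i = 0 ∧ j = 1) ∨ (i = 1 ∧ j = 0) ∨ (i = 1 ∧ j = 2) ∨ (i = 2 ∧ j = 1) ∨
    (i = 3 ∧ j = 4) ∨ (i = 4 ∧ j = 3) ∨ (i = 4 ∧ j = 5) ∨ (i = 5 ∧ j = 4) := by
  have h' : (i.val + 1 = j.val ∨ j.val + 1 = i.val) ∧ (i.val < 3 ↔ j.val < 3) := h
  clear h
  revert h'
  revert i j
  decide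

theorem adj01 : twoPaths.Adj 0 1 := by
  show (_ ∧ _); decide
theorem adj12 : twoPaths.Adj 1 2 := by
  show (_ ∧ _); decide
theorem adj34 : twoPaths.Adj 3 4 := by
  show (_ ∧ _); decide
theorem adj45 : twoPaths.Adj 4 5 := by
  show (_ ∧ _); decide

/-- torsion-freeness of `H0` -/
theorem order_eq_zero {h : H0} (hh : h ≠ 0) : addOrderOf h = 0 := by
  rw [addOrderOf_eq_zero_iff']
  intro n hn h0
  apply hh
  funext i
  have := congrFun h0 i
  simp only [Pi.smul_apply, Pi.zero_apply, nsmul_eq_mul] at this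
  rcases mul_eq_zero.1 this with h1 | h1
  · exact absurd (by exact_mod_cast h1 : n = 0) (by omega)
  · exact h1

/-- cancellation in the group ring of `H0` -/
theorem T_cancel {h : H0} (hh : h ≠ 0) {f : R H0} (hf : (T h - 1) * f = 0) : f = 0 :=
  eq_zero_of_infinite (order_eq_zero hh) hf

/-! ### The representations -/

/-- images of the generators in the representation `ψ₀` -/
noncomputable def img0 (i : Fin 6) : Aff H0 := ⟨if i.val < 3 then T (E i) - 1 else 0, E i⟩

/-- images of the generators in the representation `ψ₁` -/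
noncomputable def img1 (i : Fin 6) : Aff H0 :=
  if i = 1 then 1 else ⟨if i = 0 then T (E i) - 1 else 0, E i⟩

/-- images of the generators in the representation `ψ₂` -/
noncomputable def img2 (i : Fin 6) : Aff H0 :=
  if i = 4 then 1 else ⟨if i = 3 then T (E i) - 1 else 0, E i⟩

theorem aff_comm_translations (h k : H0) : (⟨T h - 1, h⟩ : Aff H0) * ⟨T k - 1, k⟩ =
    ⟨T k - 1, k⟩ * ⟨T h - 1, h⟩ := by
  ext1
  · simp only [Aff.mul_f]; ring
  · simp only [Aff.mul_h]; abel

theorem aff_comm_pure (h k : H0) : (⟨0, h⟩ : Aff H0) * ⟨0, k⟩ = ⟨0, k⟩ * ⟨0, h⟩ := by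
  ext1
  · simp only [Aff.mul_f, mul_zero]
  · simp only [Aff.mul_h]; abel

theorem img0_comm (i j : Fin 6) (h : twoPaths.Adj i j) : img0 i * img0 j = img0 j * img0 i := by
  have h2 : (i.val < 3 ↔ j.val < 3) := h.2
  unfold img0
  by_cases hi : i.val < 3
  · rw [if_pos hi, if_pos (h2.1 hi)]
    exact aff_comm_translations _ _
  · rw [if_neg hi, if_neg (fun hj => hi (h2.2 hj))]
    exact aff_comm_pure _ _

theorem img1_comm (i j : Fin 6) (h : twoPaths.Adj i j) : img1 i * img1 j = img1 j * img1 i := by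
  rcases adj_cases h with ⟨rfl, rfl⟩ | ⟨rfl, rfl⟩ | ⟨rfl, rfl⟩ | ⟨rfl, rfl⟩ | ⟨rfl, rfl⟩ |
    ⟨rfl, rfl⟩ | ⟨rfl, rfl⟩ | ⟨rfl, rfl⟩
  · simp [img1]
  · simp [img1]
  · simp [img1]
  · simp [img1]
  · simpa [img1] using aff_comm_pure _ _
  · simpa [img1] using aff_comm_pure _ _
  · simpa [img1] using aff_comm_pure _ _
  · simpa [img1] using aff_comm_pure _ _

theorem img2_comm (i j : Fin 6) (h : twoPaths.Adj i j) : img2 i * img2 j = img2 j * img2 i := by
  rcases adj_cases h with ⟨rfl, rfl⟩ | ⟨rfl, rfl⟩ | ⟨rfl, rfl⟩ | ⟨rfl, rfl⟩ | ⟨rfl, rfl⟩ |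
    ⟨rfl, rfl⟩ | ⟨rfl, rfl⟩ | ⟨rfl, rfl⟩
  · simpa [img2] using aff_comm_pure _ _
  · simpa [img2] using aff_comm_pure _ _
  · simpa [img2] using aff_comm_pure _ _
  · simpa [img2] using aff_comm_pure _ _
  · simp [img2]
  · simp [img2]
  · simp [img2]
  · simp [img2]

noncomputable def ψ₀ : G →* Aff H0 := homOf Aff.derived_two img0 img0_comm
noncomputable def ψ₁ : G →* Aff H0 := homOf Aff.derived_two img1 img1_comm
noncomputable def ψ₂ : G →* Aff H0 := homOf Aff.derived_two img2 img2_comm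

@[simp] theorem ψ₀_x (i : Fin 6) : ψ₀ (x i) = img0 i := homOf_gen _ _ _ i
@[simp] theorem ψ₁_x (i : Fin 6) : ψ₁ (x i) = img1 i := homOf_gen _ _ _ i
@[simp] theorem ψ₂_x (i : Fin 6) : ψ₂ (x i) = img2 i := homOf_gen _ _ _ i

/-- The exponent vector. -/
noncomputable def kap (g : G) : H0 := (ψ₀ g).h

theorem kap_mul (g h : G) : kap (g * h) = kap g + kap h := by
  simp [kap]
theorem kap_one : kap 1 = 0 := by simp [kap]
theorem kap_inv (g : G) : kap g⁻¹ = -kap g := by simp [kap]
theorem kap_x (i : Fin 6) : kap (x i) = E i := by simp [kap, img0]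
theorem kap_comm (g h : G) : kap ⁅g, h⁆ = 0 := by
  rw [kap, map_commutatorElement, Aff.comm_h]

/-- `kap` as a homomorphism -/
noncomputable def kapHom : G →* Multiplicative H0 := Aff.hHom.comp ψ₀

theorem kapHom_apply (g : G) : kapHom g = Multiplicative.ofAdd (kap g) := rfl

theorem kap_zpow (g : G) (n : ℤ) : kap (g ^ n) = n • kap g := by
  have h := map_zpow kapHom g n
  rw [kapHom_apply, kapHom_apply] at h
  exact Multiplicative.ofAdd.injective h

theorem kap_of_mem {g : G} (hg : g ∈ commutator G) : kap g = 0 := by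
  have h2 : commutator G ≤ kapHom.ker := by
    rw [commutator_def, Subgroup.commutator_le]
    intro a _ b _
    rw [MonoidHom.mem_ker, kapHom_apply, kap_comm]; rfl
  have h3 : Multiplicative.ofAdd (kap g) = 1 := h2 hg
  exact h3

/-- killing a coordinate -/
def kill (j : Fin 6) : H0 →+ H0 where
  toFun v := Function.update v j 0
  map_zero' := by simp
  map_add' v w := by
    funext i
    by_cases h : i = j
    · subst h; simp
    · simp [Function.update_of_ne h]

theorem kill_apply_same (j : Fin 6) (v : H0) : kill j v j = 0 := by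
  simp [kill]

theorem kill_apply_ne {i j : Fin 6} (h : i ≠ j) (v : H0) : kill j v i = v i := by
  simp [kill, Function.update_of_ne h]

theorem kill_E_same (j : Fin 6) : kill j (E j) = 0 := by
  funext i
  by_cases h : i = j
  · subst h; simp [kill]
  · rw [kill_apply_ne h]; simp [h]

theorem kill_E_ne {i j : Fin 6} (h : i ≠ j) : kill j (E i) = E i := by
  funext k
  by_cases hk : k = j
  · subst hk
    rw [kill_apply_same]
    simp [h.symm]
  · rw [kill_apply_ne hk]

theorem kill_eq_zero {j : Fin 6} {v : H0} (h : kill j v = 0) : v = v j • E j := by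
  funext i
  by_cases hi : i = j
  · subst hi; simp
  · have := congrFun h i
    rw [kill_apply_ne hi] at this
    rw [this]
    simp [hi]

theorem ψ₁_h (g : G) : (ψ₁ g).h = kill 1 (kap g) := by
  have h : Aff.hHom.comp ψ₁ = (AddMonoidHom.toMultiplicative (kill 1)).comp kapHom := by
    apply hom_ext
    intro i
    show Multiplicative.ofAdd (ψ₁ (x i)).h = Multiplicative.ofAdd (kill 1 (kap (x i)))
    rw [ψ₁_x, kap_x]
    congr 1
    by_cases hi : i = 1
    · subst hi
      rw [kill_E_same]; simp [img1]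
    · rw [kill_E_ne hi]; simp [img1, hi]
  exact Multiplicative.ofAdd.injective (DFunLike.congr_fun h g)

theorem ψ₂_h (g : G) : (ψ₂ g).h = kill 4 (kap g) := by
  have h : Aff.hHom.comp ψ₂ = (AddMonoidHom.toMultiplicative (kill 4)).comp kapHom := by
    apply hom_ext
    intro i
    show Multiplicative.ofAdd (ψ₂ (x i)).h = Multiplicative.ofAdd (kill 4 (kap (x i)))
    rw [ψ₂_x, kap_x]
    congr 1
    by_cases hi : i = 4
    · subst hi
      rw [kill_E_same]; simp [img2]
    · rw [kill_E_ne hi]; simp [img2, hi]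
  exact Multiplicative.ofAdd.injective (DFunLike.congr_fun h g)

/-! ### The kernel of `kap` -/

theorem mem_of_kap {g : G} (hg : kap g = 0) : g ∈ commutator G := by
  let θ : Multiplicative H0 →* Abelianization G :=
    { toFun := fun v => ∏ i, (Abelianization.of (x i)) ^ (Multiplicative.toAdd v i)
      map_one' := by simp
      map_mul' := by
        intro v w
        rw [← Finset.prod_mul_distrib]
        apply Finset.prod_congr rfl
        intro i _
        rw [toAdd_mul, Pi.add_apply, zpow_add] }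
  have h : θ.comp kapHom = Abelianization.of := by
    apply hom_ext
    intro i
    show ∏ j, (Abelianization.of (x j)) ^ (kap (x i) j) = Abelianization.of (x i)
    rw [kap_x, Finset.prod_eq_single i]
    · simp
    · intro j _ hj
      rw [E_ne_apply hj, zpow_zero]
    · simp
  have h1 := DFunLike.congr_fun h g
  rw [MonoidHom.comp_apply, kapHom_apply, hg, ofAdd_zero, map_one] at h1
  have h2 : (QuotientGroup.mk g : G ⧸ commutator G) = 1 := h1.symm
  exact (QuotientGroup.eq_one_iff g).1 h2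

/-- a section of `kap` -/
noncomputable def sec (v : H0) : G :=
  x 0 ^ v 0 * x 1 ^ v 1 * x 2 ^ v 2 * x 3 ^ v 3 * x 4 ^ v 4 * x 5 ^ v 5

theorem kap_sec (v : H0) : kap (sec v) = v := by
  unfold sec
  simp only [kap_mul, kap_zpow, kap_x]
  funext i
  fin_cases i <;> simp

theorem mem_comm_iff {g h : G} (hgh : kap g = kap h) : h⁻¹ * g ∈ commutator G := by
  apply mem_of_kap
  rw [kap_mul, kap_inv, hgh, neg_add_cancel]

theorem G_comm {a b : G} (ha : a ∈ commutator G) (hb : b ∈ commutator G) : a * b = b * a :=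
  comm_of_mem derived_two ha hb

/-- conjugation of an element of the derived subgroup depends only on the exponents -/
theorem conj_eq {g h z : G} (hz : z ∈ commutator G) (hgh : kap g = kap h) :
    g * z * g⁻¹ = h * z * h⁻¹ := by
  have h1 := G_comm (mem_comm_iff hgh) hz
  have : g * z * g⁻¹ = h * (h⁻¹ * g * z * (h⁻¹ * g)⁻¹) * h⁻¹ := by group
  rw [this, h1]
  group

theorem ψ₀_h_of_mem {g : G} (hg : g ∈ commutator G) : (ψ₀ g).h = 0 := kap_of_mem hg
theorem ψ₁_h_of_mem {g : G} (hg : g ∈ commutator G) : (ψ₁ g).h = 0 := by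
  rw [ψ₁_h, kap_of_mem hg, map_zero]
theorem ψ₂_h_of_mem {g : G} (hg : g ∈ commutator G) : (ψ₂ g).h = 0 := by
  rw [ψ₂_h, kap_of_mem hg, map_zero]

theorem aff_conj_f {a z : Aff H0} (hz : z.h = 0) : (a * z * a⁻¹).f = T a.h * z.f := by
  simp only [Aff.mul_f, Aff.mul_h, hz, add_zero, Aff.inv_f]
  have h1 : T a.h * T (-a.h) = 1 := by rw [← T_add, add_neg_cancel, T_zero]
  linear_combination (-a.f) * h1

/-! ### First step: the kernel of `ψ₀` -/

/-- the two torsion elements -/
noncomputable abbrev z₁ : G := ⁅x 0, x 2⁆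
noncomputable abbrev z₂ : G := ⁅x 3, x 5⁆

/-- the normal subgroup generated by them -/
noncomputable abbrev K : Subgroup G := Subgroup.normalClosure {z₁, z₂}

/-- homomorphism from `ℤ³` given by three commuting elements -/
noncomputable def hom3 {Q : Type} [Group Q] (a b c : Q) (hab : Commute a b) (hbc : Commute b c)
    (hac : Commute a c) : Multiplicative (Fin 3 → ℤ) →* Q where
  toFun v := a ^ (Multiplicative.toAdd v 0) * b ^ (Multiplicative.toAdd v 1) *
    c ^ (Multiplicative.toAdd v 2)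
  map_one' := by simp
  map_mul' v w := by
    simp only [toAdd_mul, Pi.add_apply, zpow_add]
    set v0 := Multiplicative.toAdd v 0
    set v1 := Multiplicative.toAdd v 1
    set v2 := Multiplicative.toAdd v 2
    set w0 := Multiplicative.toAdd w 0
    set w1 := Multiplicative.toAdd w 1
    set w2 := Multiplicative.toAdd w 2
    have e1 : a ^ w0 * b ^ v1 = b ^ v1 * a ^ w0 := (hab.zpow_zpow w0 v1).eq
    have e2 : b ^ w1 * c ^ v2 = c ^ v2 * b ^ w1 := (hbc.zpow_zpow w1 v2).eq
    have e3 : a ^ w0 * c ^ v2 = c ^ v2 * a ^ w0 := (hac.zpow_zpow w0 v2).eq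
    calc a ^ v0 * a ^ w0 * (b ^ v1 * b ^ w1) * (c ^ v2 * c ^ w2)
        = a ^ v0 * (a ^ w0 * b ^ v1) * (b ^ w1 * c ^ v2) * c ^ w2 := by group
      _ = a ^ v0 * (b ^ v1 * a ^ w0) * (c ^ v2 * b ^ w1) * c ^ w2 := by rw [e1, e2]
      _ = a ^ v0 * b ^ v1 * (a ^ w0 * c ^ v2) * b ^ w1 * c ^ w2 := by group
      _ = a ^ v0 * b ^ v1 * (c ^ v2 * a ^ w0) * b ^ w1 * c ^ w2 := by rw [e3]
      _ = a ^ v0 * b ^ v1 * c ^ v2 * (a ^ w0 * b ^ w1 * c ^ w2) := by group

theorem K_le_ker : K ≤ ψ₀.ker := by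
  apply Subgroup.normalClosure_le_normal
  intro z hz
  rw [SetLike.mem_coe, MonoidHom.mem_ker]
  rcases hz with rfl | hz
  · rw [map_commutatorElement]
    ext1
    · rw [Aff.comm_f, ψ₀_x, ψ₀_x]
      simp [img0]
      ring
    · rw [Aff.comm_h, Aff.one_h]
  · rw [Set.mem_singleton_iff.1 hz, map_commutatorElement]
    ext1
    · rw [Aff.comm_f, ψ₀_x, ψ₀_x]
      simp [img0]
    · rw [Aff.comm_h, Aff.one_h]

/-- the translation homomorphisms -/
noncomputable def trans (H : Type) [AddCommGroup H] : Multiplicative H →* Aff H where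
  toFun v := ⟨T (Multiplicative.toAdd v) - 1, Multiplicative.toAdd v⟩
  map_one' := by
    ext1
    · simp
    · rfl
  map_mul' v w := by
    ext1
    · simp only [toAdd_mul, T_add, Aff.mul_f]; ring
    · rfl

/-- the pure homomorphisms -/
noncomputable def pureHom (H : Type) [AddCommGroup H] : Multiplicative H →* Aff H where
  toFun v := ⟨0, Multiplicative.toAdd v⟩
  map_one' := by
    ext1
    · simp
    · rfl
  map_mul' v w := by
    ext1
    · simp only [Aff.mul_f]; ring
    · rfl

/-- the two embeddings `ℤ³ → ℤ⁶` -/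
def emb1 : (Fin 3 → ℤ) →+ H0 where
  toFun v := ![v 0, v 1, v 2, 0, 0, 0]
  map_zero' := by funext i; fin_cases i <;> rfl
  map_add' v w := by funext i; fin_cases i <;> simp

def emb2 : (Fin 3 → ℤ) →+ H0 where
  toFun v := ![0, 0, 0, v 0, v 1, v 2]
  map_zero' := by funext i; fin_cases i <;> rfl
  map_add' v w := by funext i; fin_cases i <;> simp

theorem emb_inj (a b a' b' : Fin 3 → ℤ) (h : emb1 a + emb2 b = emb1 a' + emb2 b') :
    a = a' ∧ b = b' := by
  constructor
  · funext i
    fin_cases i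
    · simpa [emb1, emb2] using congrFun h 0
    · simpa [emb1, emb2] using congrFun h 1
    · simpa [emb1, emb2] using congrFun h 2
  · funext i
    fin_cases i
    · simpa [emb1, emb2] using congrFun h 3
    · simpa [emb1, emb2] using congrFun h 4
    · simpa [emb1, emb2] using congrFun h 5

theorem mem_K_of_ψ₀ {n : G} (hn : n ∈ commutator G) (hf : (ψ₀ n).f = 0) : n ∈ K := by
  let π : G →* G ⧸ K := QuotientGroup.mk' K
  have hπ : Function.Surjective π := QuotientGroup.mk'_surjective K
  have hQ : derivedSeries (G ⧸ K) 2 = ⊥ := by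
    rw [← map_derivedSeries_eq hπ 2, derived_two, Subgroup.map_bot]
  have c01 : Commute (π (x 0)) (π (x 1)) := by
    have := gen_comm adj01
    exact (congrArg π this).trans (by rw [map_mul]) |> fun h => by rw [map_mul] at h; exact h
  have c12 : Commute (π (x 1)) (π (x 2)) := by
    have := congrArg π (gen_comm adj12)
    rw [map_mul, map_mul] at this; exact this
  have c34 : Commute (π (x 3)) (π (x 4)) := by
    have := congrArg π (gen_comm adj34)
    rw [map_mul, map_mul] at this; exact this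
  have c45 : Commute (π (x 4)) (π (x 5)) := by
    have := congrArg π (gen_comm adj45)
    rw [map_mul, map_mul] at this; exact this
  have c02 : Commute (π (x 0)) (π (x 2)) := by
    rw [← commutatorElement_eq_one_iff_commute, ← map_commutatorElement]
    exact (QuotientGroup.eq_one_iff _).2 (Subgroup.subset_normalClosure (Or.inl rfl))
  have c35 : Commute (π (x 3)) (π (x 5)) := by
    rw [← commutatorElement_eq_one_iff_commute, ← map_commutatorElement]
    exact (QuotientGroup.eq_one_iff _).2 (Subgroup.subset_normalClosure (Or.inr rfl))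
  let p := hom3 (π (x 0)) (π (x 1)) (π (x 2)) c01 c12 c02
  let q := hom3 (π (x 3)) (π (x 4)) (π (x 5)) c34 c45 c35
  let Ψ : G ⧸ K →* Aff H0 := QuotientGroup.lift K ψ₀ K_le_ker
  have hΨ : ∀ g, Ψ (π g) = ψ₀ g := fun g => rfl
  have hgen : p.range ⊔ q.range = ⊤ := by
    rw [eq_top_iff]
    rintro y -
    obtain ⟨g, rfl⟩ := hπ y
    have hg : g ∈ Subgroup.closure (Set.range (gen twoPaths)) := by
      rw [gen_closure]; exact Subgroup.mem_top g
    have hle : Subgroup.closure (Set.range (gen twoPaths)) ≤ (p.range ⊔ q.range).comap π := by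
      rw [Subgroup.closure_le]
      rintro _ ⟨i, rfl⟩
      show π (gen twoPaths i) ∈ p.range ⊔ q.range
      fin_cases i
      · exact (le_sup_left : p.range ≤ _) ⟨Multiplicative.ofAdd (Pi.single 0 1), by
          simp [p, hom3]⟩
      · exact (le_sup_left : p.range ≤ _) ⟨Multiplicative.ofAdd (Pi.single 1 1), by
          simp [p, hom3]⟩
      · exact (le_sup_left : p.range ≤ _) ⟨Multiplicative.ofAdd (Pi.single 2 1), by
          simp [p, hom3]⟩
      · exact (le_sup_right : q.range ≤ _) ⟨Multiplicative.ofAdd (Pi.single 0 1), by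
          simp [q, hom3]⟩
      · exact (le_sup_right : q.range ≤ _) ⟨Multiplicative.ofAdd (Pi.single 1 1), by
          simp [q, hom3]⟩
      · exact (le_sup_right : q.range ≤ _) ⟨Multiplicative.ofAdd (Pi.single 2 1), by
          simp [q, hom3]⟩
    exact hle hg
  have hp : ∀ a, Ψ (p (Multiplicative.ofAdd a)) = ⟨T (emb1 a) - 1, emb1 a⟩ := by
    intro a
    have h0 : ψ₀ (x 0) = trans H0 (Multiplicative.ofAdd (E 0)) := by
      rw [ψ₀_x]; ext1 <;> simp [img0, trans]
    have h1 : ψ₀ (x 1) = trans H0 (Multiplicative.ofAdd (E 1)) := by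
      rw [ψ₀_x]; ext1 <;> simp [img0, trans]
    have h2 : ψ₀ (x 2) = trans H0 (Multiplicative.ofAdd (E 2)) := by
      rw [ψ₀_x]; ext1 <;> simp [img0, trans]
    show Ψ (π (x 0) ^ a 0 * π (x 1) ^ a 1 * π (x 2) ^ a 2) = _
    rw [map_mul, map_mul, map_zpow, map_zpow, map_zpow, hΨ, hΨ, hΨ, h0, h1, h2,
      ← map_zpow (trans H0), ← map_zpow (trans H0), ← map_zpow (trans H0),
      ← map_mul (trans H0), ← map_mul (trans H0)]
    have : Multiplicative.ofAdd (E 0) ^ a 0 * Multiplicative.ofAdd (E 1) ^ a 1 *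
        Multiplicative.ofAdd (E 2) ^ a 2 = Multiplicative.ofAdd (emb1 a) := by
      rw [← ofAdd_zsmul, ← ofAdd_zsmul, ← ofAdd_zsmul, ← ofAdd_add, ← ofAdd_add]
      congr 1
      funext i
      fin_cases i <;> simp [emb1]
    rw [this]
    rfl
  have hq : ∀ b, Ψ (q (Multiplicative.ofAdd b)) = ⟨0, emb2 b⟩ := by
    intro a
    have h0 : ψ₀ (x 3) = pureHom H0 (Multiplicative.ofAdd (E 3)) := by
      rw [ψ₀_x]; ext1 <;> simp [img0, pureHom]
    have h1 : ψ₀ (x 4) = pureHom H0 (Multiplicative.ofAdd (E 4)) := by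
      rw [ψ₀_x]; ext1 <;> simp [img0, pureHom]
    have h2 : ψ₀ (x 5) = pureHom H0 (Multiplicative.ofAdd (E 5)) := by
      rw [ψ₀_x]; ext1 <;> simp [img0, pureHom]
    show Ψ (π (x 3) ^ a 0 * π (x 4) ^ a 1 * π (x 5) ^ a 2) = _
    rw [map_mul, map_mul, map_zpow, map_zpow, map_zpow, hΨ, hΨ, hΨ, h0, h1, h2,
      ← map_zpow (pureHom H0), ← map_zpow (pureHom H0), ← map_zpow (pureHom H0),
      ← map_mul (pureHom H0), ← map_mul (pureHom H0)]
    have : Multiplicative.ofAdd (E 3) ^ a 0 * Multiplicative.ofAdd (E 4) ^ a 1 *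
        Multiplicative.ofAdd (E 5) ^ a 2 = Multiplicative.ofAdd (emb2 a) := by
      rw [← ofAdd_zsmul, ← ofAdd_zsmul, ← ofAdd_zsmul, ← ofAdd_add, ← ofAdd_add]
      congr 1
      funext i
      fin_cases i <;> simp [emb2]
    rw [this]
    rfl
  have hnQ : π n ∈ commutator (G ⧸ K) := by
    rw [← derivedSeries_one, ← map_derivedSeries_eq hπ 1, derivedSeries_one]
    exact Subgroup.mem_map_of_mem _ hn
  have := inj_aux hQ p q hgen Ψ emb1 emb2 emb_inj hp hq hnQ (by rw [hΨ]; exact hf)
  exact (QuotientGroup.eq_one_iff n).1 this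

/-! ### Second step: the two torsion parts -/

/-- conjugate of an element of the derived subgroup -/
noncomputable def cj (z : commutator G) (v : H0) : commutator G :=
  ⟨sec v * (z : G) * (sec v)⁻¹, (inferInstance : (commutator G).Normal).conj_mem _ z.2 _⟩

noncomputable local instance : CommGroup (commutator G) := derComm derived_two

/-- the cyclic module generated by `z` -/
noncomputable def cyc (z : commutator G) : (H0 →₀ ℤ) →+ Additive (commutator G) :=
  Finsupp.liftAddHom fun v => (zmultiplesHom (Additive (commutator G))) (Additive.ofMul (cj z v))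

theorem cyc_single (z : commutator G) (v : H0) (r : ℤ) :
    cyc z (Finsupp.single v r) = r • Additive.ofMul (cj z v) := by
  simp [cyc]

/-- the first components of a representation, on the derived subgroup -/
noncomputable def FN (ψ : G →* Aff H0) (hψ : ∀ g ∈ commutator G, (ψ g).h = 0) :
    Additive (commutator G) →+ R H0 where
  toFun n := (ψ ((Additive.toMul n : commutator G) : G)).f
  map_zero' := by
    show (ψ ((1 : commutator G) : G)).f = 0
    rw [Subgroup.coe_one, map_one]; rfl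
  map_add' n m := by
    show (ψ (((Additive.toMul n : commutator G) * (Additive.toMul m : commutator G) :
          commutator G) : G)).f = _
    rw [Subgroup.coe_mul, map_mul, Aff.mul_f, hψ _ (Additive.toMul n : commutator G).2,
      T_zero, one_mul]

theorem FN_cyc (ψ : G →* Aff H0) (hψ : ∀ g ∈ commutator G, (ψ g).h = 0) (π : H0 →+ H0)
    (hπ : ∀ g, (ψ g).h = π (kap g)) (z : commutator G) (s : H0 →₀ ℤ) :
    FN ψ hψ (cyc z s) = push π (AddMonoidAlgebra.ofCoeff s) * (ψ (z : G)).f := by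
  induction s using Finsupp.induction_linear with
  | zero => simp
  | add s t hs ht =>
    rw [map_add, map_add, hs, ht, AddMonoidAlgebra.ofCoeff_add, map_add, add_mul]
  | single v r =>
    rw [cyc_single, map_zsmul]
    have h1 : FN ψ hψ (Additive.ofMul (cj z v)) = T (π v) * (ψ (z : G)).f := by
      show (ψ (sec v * (z : G) * (sec v)⁻¹)).f = _
      rw [map_mul, map_mul, map_inv, aff_conj_f (hψ _ z.2), hπ, kap_sec]
    rw [h1, AddMonoidAlgebra.ofCoeff_single, push_single]
    have h2 : AddMonoidAlgebra.single (π v) r = r • T (π v) := by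
      rw [T, AddMonoidAlgebra.smul_single, smul_eq_mul, mul_one]
    rw [h2, smul_mul_assoc]

/-- if conjugation of `z` is insensitive to the `j`-th coordinate -/
theorem cyc_kill (j : Fin 6) (z : commutator G) (hz : x j * (z : G) = (z : G) * x j)
    (s : H0 →₀ ℤ) : cyc z s = cyc z (Finsupp.mapDomain (kill j) s) := by
  induction s using Finsupp.induction_linear with
  | zero => simp
  | add s t hs ht => rw [map_add, Finsupp.mapDomain_add, map_add, hs, ht]
  | single v r =>
    rw [Finsupp.mapDomain_single, cyc_single, cyc_single]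
    congr 2
    apply Subtype.ext
    show sec v * (z : G) * (sec v)⁻¹ = sec (kill j v) * (z : G) * (sec (kill j v))⁻¹
    have h1 : kap (sec v) = kap (sec (kill j v) * x j ^ v j) := by
      rw [kap_mul, kap_sec, kap_sec, kap_zpow, kap_x]
      funext i
      by_cases hi : i = j
      · subst hi
        simp [kill]
      · rw [Pi.add_apply, kill_apply_ne hi, Pi.smul_apply, E_ne_apply hi]
        simp
    rw [conj_eq z.2 h1]
    have h2 : x j ^ v j * (z : G) = (z : G) * x j ^ v j := by
      have : Commute (x j) (z : G) := hz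
      exact (this.zpow_left (v j)).eq
    calc sec (kill j v) * x j ^ v j * (z : G) * (sec (kill j v) * x j ^ v j)⁻¹
        = sec (kill j v) * (x j ^ v j * (z : G)) * (x j ^ v j)⁻¹ * (sec (kill j v))⁻¹ := by group
      _ = sec (kill j v) * ((z : G) * x j ^ v j) * (x j ^ v j)⁻¹ * (sec (kill j v))⁻¹ := by
        rw [h2]
      _ = sec (kill j v) * (z : G) * (sec (kill j v))⁻¹ := by group

theorem ofCoeff_eq_zero_of_push (j : Fin 6) (s : H0 →₀ ℤ)
    (h : push (kill j) (AddMonoidAlgebra.ofCoeff s) = 0) : Finsupp.mapDomain (kill j) s = 0 := by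
  have h1 : push (kill j) (AddMonoidAlgebra.ofCoeff s)
      = AddMonoidAlgebra.ofCoeff (Finsupp.mapDomain (kill j) s) := rfl
  rw [h1] at h
  exact AddMonoidAlgebra.ofCoeff_eq_zero.1 h

/-- **Joint injectivity on the derived subgroup.** -/
theorem joint_injective {n : G} (hn : n ∈ commutator G) (h0 : (ψ₀ n).f = 0)
    (h1 : (ψ₁ n).f = 0) (h2 : (ψ₂ n).f = 0) : n = 1 := by
  let Z₁ : commutator G := ⟨z₁, comm_mem _ _⟩
  let Z₂ : commutator G := ⟨z₂, comm_mem _ _⟩
  have hK : ∀ m ∈ K, ∃ s t, ((Additive.toMul (cyc Z₁ s + cyc Z₂ t) : commutator G) : G) = m := by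
    intro m hm
    induction hm using Subgroup.closure_induction with
    | mem m hm =>
      obtain ⟨z, hz, hconj⟩ := Group.mem_conjugatesOfSet_iff.1 hm
      obtain ⟨g, hg⟩ := isConj_iff.1 hconj
      rcases hz with rfl | hz
      · refine ⟨Finsupp.single (kap g) 1, 0, ?_⟩
        rw [map_zero, add_zero, cyc_single, one_smul]
        show sec (kap g) * z₁ * (sec (kap g))⁻¹ = m
        rw [← hg]
        exact conj_eq (comm_mem _ _) (kap_sec _)
      · rw [Set.mem_singleton_iff] at hz
        subst hz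
        refine ⟨0, Finsupp.single (kap g) 1, ?_⟩
        rw [map_zero, zero_add, cyc_single, one_smul]
        show sec (kap g) * z₂ * (sec (kap g))⁻¹ = m
        rw [← hg]
        exact conj_eq (comm_mem _ _) (kap_sec _)
    | one => exact ⟨0, 0, by rw [map_zero, map_zero, add_zero]; rfl⟩
    | mul a b _ _ ha hb =>
      obtain ⟨s, t, hst⟩ := ha
      obtain ⟨s', t', hst'⟩ := hb
      refine ⟨s + s', t + t', ?_⟩
      have e : cyc Z₁ (s + s') + cyc Z₂ (t + t') =
          (cyc Z₁ s + cyc Z₂ t) + (cyc Z₁ s' + cyc Z₂ t') := by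
        rw [map_add (cyc Z₁), map_add (cyc Z₂)]; abel
      rw [e, ← hst, ← hst']
      rfl
    | inv a _ ha =>
      obtain ⟨s, t, hst⟩ := ha
      refine ⟨-s, -t, ?_⟩
      have e : cyc Z₁ (-s) + cyc Z₂ (-t) = -(cyc Z₁ s + cyc Z₂ t) := by
        rw [map_neg (cyc Z₁), map_neg (cyc Z₂)]; abel
      rw [e, ← hst]
      rfl
  obtain ⟨s, t, hst⟩ := hK n (mem_K_of_ψ₀ hn h0)
  -- first representation
  have f1 : FN ψ₁ (fun g hg => ψ₁_h_of_mem hg) (cyc Z₁ s + cyc Z₂ t) = 0 := by
    show (ψ₁ ((Additive.toMul (cyc Z₁ s + cyc Z₂ t) : commutator G) : G)).f = 0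
    rw [hst]; exact h1
  rw [map_add, FN_cyc ψ₁ _ (kill 1) ψ₁_h, FN_cyc ψ₁ _ (kill 1) ψ₁_h] at f1
  have g11 : (ψ₁ (Z₁ : G)).f = - ((T (E 2) - 1) * (T (E 0) - 1)) := by
    show (ψ₁ ⁅x 0, x 2⁆).f = _
    rw [map_commutatorElement, Aff.comm_f, ψ₁_x, ψ₁_x]
    simp [img1]
  have g12 : (ψ₁ (Z₂ : G)).f = 0 := by
    show (ψ₁ ⁅x 3, x 5⁆).f = _
    rw [map_commutatorElement, Aff.comm_f, ψ₁_x, ψ₁_x]
    simp [img1]
  have f2 : FN ψ₂ (fun g hg => ψ₂_h_of_mem hg) (cyc Z₁ s + cyc Z₂ t) = 0 := by
    show (ψ₂ ((Additive.toMul (cyc Z₁ s + cyc Z₂ t) : commutator G) : G)).f = 0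
    rw [hst]; exact h2
  rw [map_add, FN_cyc ψ₂ _ (kill 4) ψ₂_h, FN_cyc ψ₂ _ (kill 4) ψ₂_h] at f2
  have g21 : (ψ₂ (Z₁ : G)).f = 0 := by
    show (ψ₂ ⁅x 0, x 2⁆).f = _
    rw [map_commutatorElement, Aff.comm_f, ψ₂_x, ψ₂_x]
    simp [img2]
  have g22 : (ψ₂ (Z₂ : G)).f = - ((T (E 5) - 1) * (T (E 3) - 1)) := by
    show (ψ₂ ⁅x 3, x 5⁆).f = _
    rw [map_commutatorElement, Aff.comm_f, ψ₂_x, ψ₂_x]
    simp [img2]
  rw [g11, g12, mul_zero, add_zero] at f1
  rw [g21, g22, mul_zero, zero_add] at f2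
  have E_ne : ∀ i : Fin 6, E i ≠ 0 := by
    intro i h
    have := congrFun h i
    simp at this
  have p1 : push (kill 1) (AddMonoidAlgebra.ofCoeff s) = 0 := by
    apply T_cancel (E_ne 0)
    apply T_cancel (E_ne 2)
    linear_combination -f1
  have p2 : push (kill 4) (AddMonoidAlgebra.ofCoeff t) = 0 := by
    apply T_cancel (E_ne 3)
    apply T_cancel (E_ne 5)
    linear_combination -f2
  have c1 : Commute (x 1) z₁ := by
    have a1 : Commute (x 1) (x 0) := (gen_comm adj01).symm
    have a2 : Commute (x 1) (x 2) := gen_comm adj12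
    show Commute (x 1) (x 0 * x 2 * (x 0)⁻¹ * (x 2)⁻¹)
    exact ((a1.mul_right a2).mul_right a1.inv_right).mul_right a2.inv_right
  have c2 : Commute (x 4) z₂ := by
    have a1 : Commute (x 4) (x 3) := (gen_comm adj34).symm
    have a2 : Commute (x 4) (x 5) := gen_comm adj45
    show Commute (x 4) (x 3 * x 5 * (x 3)⁻¹ * (x 5)⁻¹)
    exact ((a1.mul_right a2).mul_right a1.inv_right).mul_right a2.inv_right
  have q1 : cyc Z₁ s = 0 := by
    rw [cyc_kill 1 Z₁ c1 s, ofCoeff_eq_zero_of_push 1 s p1, map_zero]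
  have q2 : cyc Z₂ t = 0 := by
    rw [cyc_kill 4 Z₂ c2 t, ofCoeff_eq_zero_of_push 4 t p2, map_zero]
  rw [← hst, q1, q2, add_zero]
  rfl

end Pool.Agent.LibPCM
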