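import Mathlib
import Pool.Agent.LibPCM.Struct

set_option autoImplicit false

/-!
Soundness of the encoding of the ring of integers.
-/

namespace Pool.Agent.LibPCM

open scoped commutatorElement

/-- the crossed homomorphism -/
noncomputable def F (g : G) : R H0 := (ψ₀ g).f

theorem F_mul (g h : G) : F (g * h) = F g + T (kap g) * F h := by
  rw [F, map_mul]; rfl

theorem F_comm (g h : G) : F ⁅g, h⁆ = (T (kap g) - 1) * F h - (T (kap h) - 1) * F g := by
  rw [F, map_commutatorElement, Aff.comm_f]; rfl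

theorem F_one : F 1 = 0 := by rw [F, map_one]; rfl

theorem F_inv (g : G) : F g⁻¹ = -(T (-kap g) * F g) := by
  rw [F, map_inv]; rfl

theorem F_x (i : Fin 6) : F (x i) = if i.val < 3 then T (E i) - 1 else 0 := by
  rw [F, ψ₀_x]; rfl

theorem aug_F (g : G) : aug (F g) = 0 := by
  have hg : g ∈ Subgroup.closure (Set.range (gen twoPaths)) := by
    rw [gen_closure]; exact Subgroup.mem_top g
  induction hg using Subgroup.closure_induction with
  | mem g hg =>
    obtain ⟨i, rfl⟩ := hg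
    rw [F_x]
    split_ifs <;> simp
  | one => rw [F_one]; simp
  | mul a b _ _ ha hb => rw [F_mul, map_add, map_mul, ha, hb]; simp
  | inv a _ ha => rw [F_inv, map_neg, map_mul, ha]; simp

/-- the coordinate functionals -/
def coord (i : Fin 6) : H0 →+ ℤ where
  toFun v := v i
  map_zero' := rfl
  map_add' _ _ := rfl

@[simp] theorem coord_apply (i : Fin 6) (v : H0) : coord i v = v i := rfl

theorem der_F (i : Fin 6) (g : G) : der (coord i) (F g) = if i.val < 3 then kap g i else 0 := by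
  have hg : g ∈ Subgroup.closure (Set.range (gen twoPaths)) := by
    rw [gen_closure]; exact Subgroup.mem_top g
  induction hg using Subgroup.closure_induction with
  | mem g hg =>
    obtain ⟨j, rfl⟩ := hg
    rw [F_x, kap_x]
    by_cases hj : j.val < 3
    · rw [if_pos hj, map_sub, der_T, der_one, coord_apply, sub_zero]
      split_ifs with hi
      · rfl
      · exact E_ne_apply (by rintro rfl; exact hi hj)
    · rw [if_neg hj, map_zero]
      split_ifs with hi
      · exact (E_ne_apply (by rintro rfl; exact hj hi)).symm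
      · rfl
  | one => rw [F_one, kap_one, map_zero]; simp
  | mul a b _ _ ha hb =>
    rw [F_mul, map_add, der_mul, aug_F, ha, hb, kap_mul, mul_zero, zero_add, aug_T, one_mul,
      Pi.add_apply]
    split_ifs <;> simp
  | inv a _ ha =>
    rw [F_inv, map_neg, der_mul, aug_F, ha, kap_inv, mul_zero, zero_add, aug_T, one_mul,
      Pi.neg_apply]
    split_ifs <;> simp

/-! ### Polynomial fixed points -/

theorem kill_smul_E (j : Fin 6) (m : ℤ) : kill j (m • E j) = 0 := by
  rw [map_zsmul, kill_E_same, smul_zero]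

/-- infinite order modulo a line -/
theorem order_mod {j : Fin 6} {u v : H0} {m : ℤ} (hv : v = m • E j) (hu : kill j u ≠ 0) :
    addOrderOf (QuotientAddGroup.mk' (AddSubgroup.zmultiples v) u) = 0 := by
  rw [addOrderOf_eq_zero_iff']
  intro n hn h0
  rw [← map_nsmul, QuotientAddGroup.mk'_apply, QuotientAddGroup.eq_zero_iff,
    AddSubgroup.mem_zmultiples_iff] at h0
  obtain ⟨k, hk⟩ := h0
  have h1 := congrArg (kill j) hk
  rw [hv, map_zsmul, kill_smul_E, smul_zero, map_nsmul] at h1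
  have h2 := order_eq_zero hu
  rw [addOrderOf_eq_zero_iff'] at h2
  exact h2 n hn h1.symm

theorem quot_ker {v w : H0} (h : QuotientAddGroup.mk' (AddSubgroup.zmultiples v) w = 0) :
    ∃ k : ℤ, w = k • v := by
  rw [QuotientAddGroup.mk'_apply, QuotientAddGroup.eq_zero_iff,
    AddSubgroup.mem_zmultiples_iff] at h
  obtain ⟨k, hk⟩ := h
  exact ⟨k, hk.symm⟩

/-- commuting elements with independent exponents have a common polynomial fixed point -/
theorem exists_fixed {u v : G} {j : Fin 6} {m : ℤ} (hm : m ≠ 0) (huv : Commute u v)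
    (hv : kap v = m • E j) (hu : kill j (kap u) ≠ 0) :
    ∃ φ : R H0, F v = (T (kap v) - 1) * φ ∧ F u = (T (kap u) - 1) * φ := by
  set π := QuotientAddGroup.mk' (AddSubgroup.zmultiples (kap v)) with hπ
  have h1 : (T (kap u) - 1) * F v - (T (kap v) - 1) * F u = 0 := by
    rw [← F_comm, commutatorElement_eq_one_iff_commute.2 huv, F_one]
  have hπv : π (kap v) = 0 := by
    rw [hπ, QuotientAddGroup.mk'_apply, QuotientAddGroup.eq_zero_iff]
    exact AddSubgroup.mem_zmultiples _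
  have h2 : push π (F v) = 0 := by
    apply eq_zero_of_infinite (order_mod hv hu)
    have h3 := congrArg (push π) h1
    rw [map_sub, map_mul, map_mul, map_sub, map_sub, push_T, push_T, map_one, map_zero, hπv,
      T_zero, sub_self, zero_mul, sub_zero] at h3
    exact h3
  obtain ⟨φ, hφ⟩ := exists_mul_of_push_eq_zero π (kap v) (fun x hx => quot_ker hx) h2
  refine ⟨φ, hφ, ?_⟩
  have hv0 : kap v ≠ 0 := by
    rw [hv]
    intro h
    have := congrFun h j
    simp at this
    exact hm this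
  have h4 : (T (kap v) - 1) * (F u - (T (kap u) - 1) * φ) = 0 := by
    rw [hφ] at h1
    linear_combination -h1
  exact sub_eq_zero.1 (T_cancel hv0 h4)

theorem exists_phi {a b : G} {m : ℤ} (hm : m ≠ 0) (hab : Commute a b) (hb : kap b = m • E 1)
    (ha : kill 1 (kap a) ≠ 0) :
    ∃ φ : R H0, F b = (T (kap b) - 1) * φ ∧ F a = (T (kap a) - 1) * φ ∧ aug φ = 1 := by
  obtain ⟨φ, h1, h2⟩ := exists_fixed hm hab hb ha
  refine ⟨φ, h1, h2, ?_⟩
  have h3 := der_F 1 b
  rw [h1, der_mul, map_sub, map_sub, der_T, der_one, aug_T, map_one, sub_self, zero_mul, add_zero,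
    sub_zero, coord_apply, if_pos (by decide)] at h3
  have h4 : kap b 1 = m := by rw [hb]; simp
  rw [h4] at h3
  exact mul_left_cancel₀ hm (h3.trans (mul_one m).symm)

theorem exists_psi {d e : G} {m : ℤ} (hm : m ≠ 0) (hde : Commute d e) (he : kap e = m • E 4)
    (hd : kill 4 (kap d) ≠ 0) :
    ∃ ψ : R H0, F e = (T (kap e) - 1) * ψ ∧ aug ψ = 0 := by
  obtain ⟨ψ, h1, h2⟩ := exists_fixed hm hde he hd
  refine ⟨ψ, h1, ?_⟩
  have h3 := der_F 4 e
  rw [h1, der_mul, map_sub, map_sub, der_T, der_one, aug_T, map_one, sub_self, zero_mul, add_zero,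
    sub_zero, coord_apply, he] at h3
  simp at h3
  rcases h3 with h3 | h3
  · exact absurd h3 hm
  · exact h3

/-- The standard situation. -/
structure Std (a b d e : G) (m m' : ℤ) : Prop where
  hm : m ≠ 0
  hm' : m' ≠ 0
  hb : kap b = m • E 1
  he : kap e = m' • E 4
  ha : kill 1 (kap a) ≠ 0
  hd : kill 4 (kap d) ≠ 0
  hab : Commute a b
  hde : Commute d e

theorem Std.b_ne {a b d e : G} {m m' : ℤ} (h : Std a b d e m m') : kap b ≠ 0 := by
  rw [h.hb]
  intro h0
  have := congrFun h0 1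
  simp at this
  exact h.hm this

theorem Std.e_ne {a b d e : G} {m m' : ℤ} (h : Std a b d e m m') : kap e ≠ 0 := by
  rw [h.he]
  intro h0
  have := congrFun h0 4
  simp at this
  exact h.hm' this

/-- integrality -/
theorem Std.integral {a b d e : G} {m m' : ℤ} (h : Std a b d e m m') {X w : G}
    (hX : ⁅X, ⁅a, e⁆⁆ = ⁅b, w⁆) : ∃ ζ : ℤ, kap X = ζ • kap b := by
  obtain ⟨φ, hφb, hφa, hφ1⟩ := exists_phi h.hm h.hab h.hb h.ha
  obtain ⟨ψ, hψe, hψ0⟩ := exists_psi h.hm' h.hde h.he h.hd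
  set π := QuotientAddGroup.mk' (AddSubgroup.zmultiples (kap b)) with hπ
  have h1 := congrArg F hX
  rw [F_comm, kap_comm, T_zero, sub_self, zero_mul, sub_zero, F_comm, F_comm, hφb, hφa, hψe] at h1
  have h2 : (T (kap X) - 1) * ((T (kap a) - 1) * ((T (kap e) - 1) * (ψ - φ))) =
      (T (kap b) - 1) * (F w - (T (kap w) - 1) * φ) := by
    linear_combination h1
  have hπb : π (kap b) = 0 := by
    rw [hπ, QuotientAddGroup.mk'_apply, QuotientAddGroup.eq_zero_iff]
    exact AddSubgroup.mem_zmultiples _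
  have h3 := congrArg (push π) h2
  simp only [map_mul, map_sub, push_T, map_one, hπb, T_zero, sub_self, zero_mul] at h3
  have h4 : (T (π (kap a)) - 1) * ((T (π (kap e)) - 1) *
      ((T (π (kap X)) - 1) * (push π ψ - push π φ))) = 0 := by
    linear_combination h3
  have h5 := eq_zero_of_infinite (order_mod h.hb h.ha) h4
  have hke : kill 1 (kap e) ≠ 0 := by
    rw [h.he, map_zsmul, kill_E_ne (by decide)]
    intro h0
    have := congrFun h0 4
    simp at this
    exact h.hm' this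
  have h6 := eq_zero_of_infinite (order_mod h.hb hke) h5
  have h7 : π (kap X) = 0 := by
    apply eq_zero_of_aug (f := push π ψ - push π φ) _ h6
    rw [map_sub, aug_push, aug_push, hψ0, hφ1]; norm_num
  exact quot_ker h7

/-- elements centralizing `[b, e]` have exponent zero -/
theorem Std.kap_zero {a b d e : G} {m m' : ℤ} (h : Std a b d e m m') {u : G}
    (hu : ⁅u, ⁅b, e⁆⁆ = 1) : kap u = 0 := by
  obtain ⟨φ, hφb, hφa, hφ1⟩ := exists_phi h.hm h.hab h.hb h.ha
  obtain ⟨ψ, hψe, hψ0⟩ := exists_psi h.hm' h.hde h.he h.hd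
  by_contra hne
  have h1 := congrArg F hu
  rw [F_comm, kap_comm, T_zero, sub_self, zero_mul, sub_zero, F_comm, hφb, hψe, F_one] at h1
  have h2 := T_cancel hne h1
  have h3 : (T (kap b) - 1) * ((T (kap e) - 1) * (ψ - φ)) = 0 := by
    linear_combination h2
  have h4 := T_cancel h.e_ne (T_cancel h.b_ne h3)
  have h5 := congrArg aug h4
  rw [map_sub, hψ0, hφ1, map_zero] at h5
  norm_num at h5

/-! ### The Heisenberg quotient -/

def imgH (i : Fin 6) : Heis := if i = 1 then ⟨1, 0, 0⟩ else if i = 4 then ⟨0, 1, 0⟩ else 1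

theorem imgH_comm (i j : Fin 6) (h : twoPaths.Adj i j) : imgH i * imgH j = imgH j * imgH i := by
  rcases adj_cases h with ⟨rfl, rfl⟩ | ⟨rfl, rfl⟩ | ⟨rfl, rfl⟩ | ⟨rfl, rfl⟩ | ⟨rfl, rfl⟩ |
    ⟨rfl, rfl⟩ | ⟨rfl, rfl⟩ | ⟨rfl, rfl⟩ <;> simp [imgH]

noncomputable def heis : G →* Heis := homOf Heis.derived_two imgH imgH_comm

theorem heis_x (i : Fin 6) : heis (x i) = imgH i := homOf_gen _ _ _ i

theorem heis_coord (g : G) : (heis g).x = kap g 1 ∧ (heis g).y = kap g 4 := by
  have hg : g ∈ Subgroup.closure (Set.range (gen twoPaths)) := by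
    rw [gen_closure]; exact Subgroup.mem_top g
  induction hg using Subgroup.closure_induction with
  | mem g hg =>
    obtain ⟨i, rfl⟩ := hg
    rw [heis_x, kap_x]
    fin_cases i <;> simp [imgH]
  | one => rw [map_one, kap_one]; exact ⟨rfl, rfl⟩
  | mul a b _ _ ha hb =>
    rw [map_mul, kap_mul, Heis.mul_x, Heis.mul_y, ha.1, ha.2, hb.1, hb.2]
    exact ⟨rfl, rfl⟩
  | inv a _ ha =>
    rw [map_inv, kap_inv, Heis.inv_x, Heis.inv_y, ha.1, ha.2]
    exact ⟨rfl, rfl⟩

/-- the class-two invariant of a commutator -/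
theorem heis_comm (g h : G) :
    heis ⁅g, h⁆ = ⟨0, 0, kap g 1 * kap h 4 - kap g 4 * kap h 1⟩ := by
  rw [map_commutatorElement, Heis.comm_eq, (heis_coord g).1, (heis_coord g).2,
    (heis_coord h).1, (heis_coord h).2]

theorem heis_rel {p q r s b u e v : G} (h : ⁅p, q⁆ = ⁅r, s⁆ * ⁅b, u⁆ * ⁅e, v⁆)
    (hu : kap u = 0) (hv : kap v = 0) :
    kap p 1 * kap q 4 - kap p 4 * kap q 1 = kap r 1 * kap s 4 - kap r 4 * kap s 1 := by
  have h1 := congrArg (fun g => (heis g).z) h
  simp only [map_mul, heis_comm, Heis.mul_z, Heis.mul_x, hu, hv, Pi.zero_apply, mul_zero,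
    sub_zero, add_zero] at h1
  exact h1

/-! ### The encoding of an integer -/

/-- The tuple `(X, Y, u, v, w)` encodes an integer. -/
def Good (a b e X Y u v w : G) : Prop :=
  ⁅X, ⁅a, e⁆⁆ = ⁅b, w⁆ ∧ ⁅u, ⁅b, e⁆⁆ = 1 ∧ ⁅v, ⁅b, e⁆⁆ = 1 ∧ ⁅X, e⁆ = ⁅b, Y⁆ * ⁅b, u⁆ * ⁅e, v⁆

theorem Std.good {a b d e : G} {m m' : ℤ} (h : Std a b d e m m') {X Y u v w : G}
    (hg : Good a b e X Y u v w) : ∃ ζ : ℤ, kap X = ζ • kap b ∧ kap Y 4 = m' * ζ := by
  obtain ⟨h1, h2, h3, h4⟩ := hg
  obtain ⟨ζ, hζ⟩ := h.integral h1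
  refine ⟨ζ, hζ, ?_⟩
  have h5 := heis_rel h4 (h.kap_zero h2) (h.kap_zero h3)
  rw [hζ, h.hb, h.he] at h5
  simp at h5
  have h6 : m * (ζ * m') = m * kap Y 4 := by linear_combination h5
  have := mul_left_cancel₀ h.hm h6
  rw [← this]; ring

/-- The product relation. -/
def MulRel (b e X Y Z u v : G) : Prop :=
  ⁅u, ⁅b, e⁆⁆ = 1 ∧ ⁅v, ⁅b, e⁆⁆ = 1 ∧ ⁅X, Y⁆ = ⁅Z, e⁆ * ⁅b, u⁆ * ⁅e, v⁆

theorem Std.mulRel {a b d e : G} {m m' : ℤ} (h : Std a b d e m m') {X Y Z u v : G}
    {ζ η θ : ℤ} (hX : kap X = ζ • kap b) (hY : kap Y 4 = m' * η) (hZ : kap Z = θ • kap b)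
    (hr : MulRel b e X Y Z u v) : ζ * η = θ := by
  obtain ⟨h2, h3, h4⟩ := hr
  have h5 := heis_rel h4 (h.kap_zero h2) (h.kap_zero h3)
  rw [hX, hZ, h.hb, h.he, hY] at h5
  simp at h5
  have h6 : (m * m') * (ζ * η) = (m * m') * θ := by linear_combination h5
  exact mul_left_cancel₀ (mul_ne_zero h.hm h.hm') h6

theorem Std.inj {a b d e : G} {m m' : ℤ} (h : Std a b d e m m') {ζ η : ℤ}
    (hz : ζ • kap b = η • kap b) : ζ = η := by
  have h1 := congrFun hz 1
  rw [h.hb] at h1
  simp at h1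
  rcases h1 with h1 | h1
  · exact h1
  · exact absurd h1 h.hm

/-! ### The base configuration -/

/-- The base configuration. -/
def Base (a b c d e f : G) : Prop :=
  ⁅a, b⁆ = 1 ∧ ⁅b, c⁆ = 1 ∧ ⁅d, e⁆ = 1 ∧ ⁅e, f⁆ = 1 ∧
    ⁅e, ⁅a, ⁅a, c⁆⁆⁆ ≠ 1 ∧ ⁅b, ⁅d, ⁅d, f⁆⁆⁆ ≠ 1

theorem T_sub_one_ne_zero {h : H0} {f : R H0} (hf : (T h - 1) * f ≠ 0) : h ≠ 0 := by
  rintro rfl
  apply hf
  rw [T_zero, sub_self, zero_mul]

theorem rep_cases (ψ : G →* Aff H0) {a b c e : G} (hab : ⁅a, b⁆ = 1) (hbc : ⁅b, c⁆ = 1)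
    (hne : (ψ ⁅e, ⁅a, ⁅a, c⁆⁆⁆).f ≠ 0) : (ψ b).h = 0 ∧ (ψ e).h ≠ 0 ∧ (ψ a).h ≠ 0 := by
  have h1 : (ψ ⁅e, ⁅a, ⁅a, c⁆⁆⁆).f = (T (ψ e).h - 1) * (ψ ⁅a, ⁅a, c⁆⁆).f := by
    rw [map_commutatorElement, Aff.comm_f, map_commutatorElement, Aff.comm_h, T_zero, sub_self,
      zero_mul, sub_zero]
  have h2 : (ψ ⁅a, ⁅a, c⁆⁆).f = (T (ψ a).h - 1) * (ψ ⁅a, c⁆).f := by
    rw [map_commutatorElement, Aff.comm_f, map_commutatorElement, Aff.comm_h, T_zero, sub_self,
      zero_mul, sub_zero]
  rw [h1] at hne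
  have hn0 : (ψ ⁅a, ⁅a, c⁆⁆).f ≠ 0 := right_ne_zero_of_mul hne
  refine ⟨?_, T_sub_one_ne_zero hne, ?_⟩
  · by_contra hb
    apply hn0
    apply T_cancel hb
    have c1 : Commute b a := (commutatorElement_eq_one_iff_commute.1 hab).symm
    have c2 : Commute b c := commutatorElement_eq_one_iff_commute.1 hbc
    have c3 : Commute b ⁅a, c⁆ := by
      rw [commutatorElement_def]
      exact ((c1.mul_right c2).mul_right c1.inv_right).mul_right c2.inv_right
    have c4 : Commute b ⁅a, ⁅a, c⁆⁆ := by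
      rw [commutatorElement_def a]
      exact ((c1.mul_right c3).mul_right c1.inv_right).mul_right c3.inv_right
    have h3 := congrArg Aff.f (congrArg ψ (commutatorElement_eq_one_iff_commute.2 c4))
    rw [map_commutatorElement, Aff.comm_f, map_one, Aff.one_f] at h3
    have h4 : (ψ ⁅a, ⁅a, c⁆⁆).h = 0 := by rw [map_commutatorElement, Aff.comm_h]
    rw [h4, T_zero, sub_self, zero_mul, sub_zero] at h3
    exact h3
  · rw [h2] at hn0
    exact T_sub_one_ne_zero hn0

theorem rep_exists {a b c e : G} (hab : ⁅a, b⁆ = 1) (hbc : ⁅b, c⁆ = 1)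
    (hne : ⁅e, ⁅a, ⁅a, c⁆⁆⁆ ≠ 1) :
    (kap b = 0) ∨ (kill 1 (kap b) = 0 ∧ kill 1 (kap e) ≠ 0 ∧ kill 1 (kap a) ≠ 0) ∨
      (kill 4 (kap b) = 0 ∧ kill 4 (kap e) ≠ 0 ∧ kill 4 (kap a) ≠ 0) := by
  by_contra hcon
  push Not at hcon
  obtain ⟨h0, h1, h2⟩ := hcon
  apply hne
  apply joint_injective (comm_mem _ _)
  · by_contra h
    exact h0 (rep_cases ψ₀ hab hbc h).1
  · by_contra h
    obtain ⟨k1, k2, k3⟩ := rep_cases ψ₁ hab hbc h
    rw [ψ₁_h] at k1 k2 k3
    exact k3 (h1 k1 k2)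
  · by_contra h
    obtain ⟨k1, k2, k3⟩ := rep_cases ψ₂ hab hbc h
    rw [ψ₂_h] at k1 k2 k3
    exact k3 (h2 k1 k2)

theorem Base.cases {a b c d e f : G} (h : Base a b c d e f) :
    (∃ m m', Std a b d e m m') ∨
      (kill 4 (kap b) = 0 ∧ kill 1 (kap e) = 0 ∧ kap b ≠ 0 ∧ kap e ≠ 0 ∧
        kill 4 (kap a) ≠ 0 ∧ kill 1 (kap d) ≠ 0) := by
  obtain ⟨hab, hbc, hde, hef, h1, h2⟩ := h
  have hb0 : kap b ≠ 0 := by
    intro h0
    apply h2
    have := G_comm (mem_of_kap h0) (comm_mem d ⁅d, f⁆)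
    exact commutatorElement_eq_one_iff_mul_comm.2 this
  have he0 : kap e ≠ 0 := by
    intro h0
    apply h1
    have := G_comm (mem_of_kap h0) (comm_mem a ⁅a, c⁆)
    exact commutatorElement_eq_one_iff_mul_comm.2 this
  have r1 := rep_exists hab hbc h1
  have r2 := rep_exists hde hef h2
  rcases r1 with r1 | r1 | r1
  · exact absurd r1 hb0
  · rcases r2 with r2 | r2 | r2
    · exact absurd r2 he0
    · exact absurd r2.1 r1.2.1
    · left
      refine ⟨kap b 1, kap e 4, ?_, ?_, kill_eq_zero r1.1, kill_eq_zero r2.1, r1.2.2, r2.2.2,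
        commutatorElement_eq_one_iff_commute.1 hab, commutatorElement_eq_one_iff_commute.1 hde⟩
      · intro h0
        have := kill_eq_zero r1.1
        rw [h0, zero_smul] at this
        exact hb0 this
      · intro h0
        have := kill_eq_zero r2.1
        rw [h0, zero_smul] at this
        exact he0 this
  · rcases r2 with r2 | r2 | r2
    · exact absurd r2 he0
    · right
      exact ⟨r1.1, r2.1, hb0, he0, r1.2.2, r2.2.2⟩
    · exact absurd r2.1 r1.2.1

/-! ### The swap -/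

/-- the permutation exchanging the two paths -/
def swp (i : Fin 6) : Fin 6 := ![3, 4, 5, 0, 1, 2] i

theorem swp_swp (i : Fin 6) : swp (swp i) = i := by fin_cases i <;> rfl

theorem swp_adj {i j : Fin 6} (h : twoPaths.Adj i j) : twoPaths.Adj (swp i) (swp j) := by
  rcases adj_cases h with ⟨rfl, rfl⟩ | ⟨rfl, rfl⟩ | ⟨rfl, rfl⟩ | ⟨rfl, rfl⟩ | ⟨rfl, rfl⟩ |
    ⟨rfl, rfl⟩ | ⟨rfl, rfl⟩ | ⟨rfl, rfl⟩
  · exact adj34
  · exact adj34.symm
  · exact adj45
  · exact adj45.symm
  · exact adj01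
  · exact adj01.symm
  · exact adj12
  · exact adj12.symm

/-- the automorphism of `G` exchanging the two paths -/
noncomputable def sw : G →* G :=
  homOf derived_two (fun i => x (swp i)) fun _ _ h => gen_comm (swp_adj h)

theorem sw_x (i : Fin 6) : sw (x i) = x (swp i) := homOf_gen _ _ _ i

theorem sw_sw (g : G) : sw (sw g) = g := by
  have h : sw.comp sw = MonoidHom.id G := by
    apply hom_ext
    intro i
    show sw (sw (x i)) = x i
    rw [sw_x, sw_x, swp_swp]
  exact DFunLike.congr_fun h g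

theorem sw_injective : Function.Injective sw := fun g h hgh => by
  rw [← sw_sw g, hgh, sw_sw]

theorem kap_sw (g : G) (i : Fin 6) : kap (sw g) i = kap g (swp i) := by
  have hg : g ∈ Subgroup.closure (Set.range (gen twoPaths)) := by
    rw [gen_closure]; exact Subgroup.mem_top g
  induction hg using Subgroup.closure_induction with
  | mem g hg =>
    obtain ⟨j, rfl⟩ := hg
    show kap (sw (x j)) i = kap (x j) (swp i)
    rw [sw_x, kap_x, kap_x]
    fin_cases i <;> fin_cases j <;> simp [swp]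
  | one => rw [map_one, kap_one]; rfl
  | mul a b _ _ ha hb => rw [map_mul, kap_mul, kap_mul, Pi.add_apply, Pi.add_apply, ha, hb]
  | inv a _ ha => rw [map_inv, kap_inv, kap_inv, Pi.neg_apply, Pi.neg_apply, ha]

theorem kill_sw1 (g : G) : kill 1 (kap (sw g)) = 0 ↔ kill 4 (kap g) = 0 := by
  constructor
  · intro h
    funext i
    by_cases hi : i = 4
    · subst hi; exact kill_apply_same _ _
    · rw [kill_apply_ne hi]
      have h1 : swp i ≠ 1 := by
        intro h2
        apply hi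
        rw [← swp_swp i, h2]; rfl
      have := congrFun h (swp i)
      rw [kill_apply_ne h1, kap_sw, swp_swp] at this
      exact this
  · intro h
    funext i
    by_cases hi : i = 1
    · subst hi; exact kill_apply_same _ _
    · rw [kill_apply_ne hi, kap_sw]
      have h1 : swp i ≠ 4 := by
        intro h2
        apply hi
        rw [← swp_swp i, h2]; rfl
      have := congrFun h (swp i)
      rw [kill_apply_ne h1] at this
      exact this

theorem kill_sw4 (g : G) : kill 4 (kap (sw g)) = 0 ↔ kill 1 (kap g) = 0 := by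
  rw [← kill_sw1, sw_sw]

theorem kap_sw_ne {g : G} (h : kap g ≠ 0) : kap (sw g) ≠ 0 := by
  intro h0
  apply h
  funext i
  have := congrFun h0 (swp i)
  rw [kap_sw, swp_swp] at this
  exact this

theorem Base.swapped {a b c d e f : G} (h : Base a b c d e f) :
    Base (sw a) (sw b) (sw c) (sw d) (sw e) (sw f) := by
  obtain ⟨h1, h2, h3, h4, h5, h6⟩ := h
  refine ⟨?_, ?_, ?_, ?_, ?_, ?_⟩
  · rw [← map_commutatorElement, h1, map_one]
  · rw [← map_commutatorElement, h2, map_one]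
  · rw [← map_commutatorElement, h3, map_one]
  · rw [← map_commutatorElement, h4, map_one]
  · rw [← map_commutatorElement, ← map_commutatorElement, ← map_commutatorElement]
    intro h0
    exact h5 (sw_injective (by rw [h0, map_one]))
  · rw [← map_commutatorElement, ← map_commutatorElement, ← map_commutatorElement]
    intro h0
    exact h6 (sw_injective (by rw [h0, map_one]))

/-- After possibly applying the swap, a base configuration is standard. -/
theorem Base.std {a b c d e f : G} (h : Base a b c d e f) :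
    (∃ m m', Std a b d e m m') ∨ (∃ m m', Std (sw a) (sw b) (sw d) (sw e) m m') := by
  rcases h.cases with h1 | ⟨h1, h2, h3, h4, h5, h6⟩
  · exact Or.inl h1
  · right
    rcases h.swapped.cases with k | k
    · exact k
    · exfalso
      have k1 := (kill_sw4 b).1 k.1
      have e1 := kill_eq_zero h1
      have e2 := kill_eq_zero k1
      apply h3
      rw [e1] at e2
      have e3 := congrFun e2 4
      simp at e3
      rw [e1, e3, zero_smul]

end Pool.Agent.LibPCM
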