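import Mathlib
import Pool.Agent.LibPCM.Sound

set_option autoImplicit false

/-!
Completeness of the encoding of the ring of integers.
-/

namespace Pool.Agent.LibPCM

open scoped commutatorElement

section gen

variable {Q : Type} [Group Q]

/-- class two computation -/
theorem nil_two {b e : Q} (h1 : Commute b ⁅b, e⁆) (h2 : Commute e ⁅b, e⁆) (p q : ℤ) :
    ⁅b ^ p, e ^ q⁆ = ⁅b, e⁆ ^ (p * q) := by
  set c := ⁅b, e⁆ with hc
  have e1 : b * e * b⁻¹ = c * e := by rw [hc, commutatorElement_def]; group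
  have e2 : b * e ^ q * b⁻¹ = c ^ q * e ^ q := by
    rw [← conj_zpow, e1, h2.symm.mul_zpow]
  have e3 : e ^ q * b * (e ^ q)⁻¹ = c ^ (-q) * b := by
    have h3 : Commute b (c ^ q) := h1.zpow_right q
    have : b * e ^ q = c ^ q * e ^ q * b := by rw [← e2]; group
    have h4 : e ^ q * b = (c ^ q)⁻¹ * (b * e ^ q) := by rw [this]; group
    rw [h4, zpow_neg]; group
  have e4 : e ^ q * b ^ p * (e ^ q)⁻¹ = c ^ (-(q * p)) * b ^ p := by
    have h3 : Commute (c ^ (-q)) b := (h1.zpow_right (-q)).symm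
    rw [← conj_zpow, e3, h3.mul_zpow, ← zpow_mul, neg_mul]
  have h5 : Commute (b ^ p) (c ^ (p * q)) := (h1.zpow_right (p * q)).zpow_left p
  rw [commutatorElement_def]
  have e5 : e ^ q * (b ^ p)⁻¹ * (e ^ q)⁻¹ = (e ^ q * b ^ p * (e ^ q)⁻¹)⁻¹ := by group
  calc b ^ p * e ^ q * (b ^ p)⁻¹ * (e ^ q)⁻¹ = b ^ p * (e ^ q * (b ^ p)⁻¹ * (e ^ q)⁻¹) := by group
    _ = b ^ p * (c ^ (-(q * p)) * b ^ p)⁻¹ := by rw [e5, e4]
    _ = c ^ (p * q) := by
      have h6 : (c ^ (-(q * p)))⁻¹ = c ^ (p * q) := by rw [zpow_neg, inv_inv, mul_comm]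
      rw [mul_inv_rev, h6]
      group

variable (hQ : derivedSeries Q 2 = ⊥)
include hQ

theorem comm_mul_right {b u u' : Q} (hu : u ∈ commutator Q) :
    ⁅b, u * u'⁆ = ⁅b, u⁆ * ⁅b, u'⁆ := by
  have h1 : u⁻¹ * ⁅b, u'⁆ = ⁅b, u'⁆ * u⁻¹ :=
    comm_of_mem hQ ((commutator Q).inv_mem hu) (comm_mem _ _)
  have : ⁅b, u * u'⁆ = ⁅b, u⁆ * (u * ⁅b, u'⁆ * u⁻¹) := by
    simp only [commutatorElement_def]; group
  rw [this, mul_assoc u, ← h1]
  group

theorem comm_inv_right {b u : Q} (hu : u ∈ commutator Q) : ⁅b, u⁻¹⁆ = ⁅b, u⁆⁻¹ := by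
  have h := comm_mul_right hQ (b := b) (u' := u⁻¹) hu
  rw [mul_inv_cancel, commutatorElement_one_right] at h
  exact eq_inv_of_mul_eq_one_right h.symm

/-- the normal subgroup of products `[b, u][e, v]` -/
def relSub (b e : Q) : Subgroup Q where
  carrier := {n | ∃ u ∈ commutator Q, ∃ v ∈ commutator Q, n = ⁅b, u⁆ * ⁅e, v⁆}
  one_mem' := ⟨1, (commutator Q).one_mem, 1, (commutator Q).one_mem, by simp⟩
  mul_mem' := by
    rintro _ _ ⟨u, hu, v, hv, rfl⟩ ⟨u', hu', v', hv', rfl⟩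
    refine ⟨u * u', (commutator Q).mul_mem hu hu', v * v', (commutator Q).mul_mem hv hv', ?_⟩
    rw [comm_mul_right hQ hu, comm_mul_right hQ hv]
    have h1 : ⁅e, v⁆ * ⁅b, u'⁆ = ⁅b, u'⁆ * ⁅e, v⁆ := comm_of_mem hQ (comm_mem _ _) (comm_mem _ _)
    calc ⁅b, u⁆ * ⁅e, v⁆ * (⁅b, u'⁆ * ⁅e, v'⁆) = ⁅b, u⁆ * (⁅e, v⁆ * ⁅b, u'⁆) * ⁅e, v'⁆ := by group
      _ = ⁅b, u⁆ * ⁅b, u'⁆ * (⁅e, v⁆ * ⁅e, v'⁆) := by rw [h1]; group
  inv_mem' := by
    rintro _ ⟨u, hu, v, hv, rfl⟩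
    refine ⟨u⁻¹, (commutator Q).inv_mem hu, v⁻¹, (commutator Q).inv_mem hv, ?_⟩
    rw [comm_inv_right hQ hu, comm_inv_right hQ hv, mul_inv_rev]
    exact comm_of_mem hQ ((commutator Q).inv_mem (comm_mem _ _))
      ((commutator Q).inv_mem (comm_mem _ _))

theorem conj_comm {b u g : Q} (hu : u ∈ commutator Q) :
    g * ⁅b, u⁆ * g⁻¹ = ⁅b, g * u * g⁻¹⁆ := by
  have hn : b⁻¹ * (g * b * g⁻¹) ∈ commutator Q := by
    have : b⁻¹ * (g * b * g⁻¹) = ⁅b⁻¹, g⁆ := by rw [commutatorElement_def]; group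
    rw [this]; exact comm_mem _ _
  have hu' : g * u * g⁻¹ ∈ commutator Q :=
    (inferInstance : (commutator Q).Normal).conj_mem _ hu _
  have h1 := comm_of_mem hQ hn hu'
  have e1 : g * ⁅b, u⁆ * g⁻¹ = b * ((b⁻¹ * (g * b * g⁻¹)) * (g * u * g⁻¹)) *
      (b⁻¹ * (g * b * g⁻¹))⁻¹ * b⁻¹ * (g * u * g⁻¹)⁻¹ := by
    rw [commutatorElement_def]; group
  rw [e1, h1, commutatorElement_def]
  group

theorem relSub_normal (b e : Q) : (relSub hQ b e).Normal := by
  constructor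
  rintro _ ⟨u, hu, v, hv, rfl⟩ g
  refine ⟨g * u * g⁻¹, (inferInstance : (commutator Q).Normal).conj_mem _ hu _,
    g * v * g⁻¹, (inferInstance : (commutator Q).Normal).conj_mem _ hv _, ?_⟩
  rw [← conj_comm hQ hu, ← conj_comm hQ hv]
  group

theorem complete_rel (b e : Q) {p q r s : ℤ} (h : p * q = r * s) :
    ∃ u ∈ commutator Q, ∃ v ∈ commutator Q,
      ⁅b ^ p, e ^ q⁆ = ⁅b ^ r, e ^ s⁆ * ⁅b, u⁆ * ⁅e, v⁆ := by
  have : (relSub hQ b e).Normal := relSub_normal hQ b e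
  let π := QuotientGroup.mk' (relSub hQ b e)
  have hone : (1 : Q) ∈ commutator Q := (commutator Q).one_mem
  have h1 : Commute (π b) ⁅π b, π e⁆ := by
    rw [← map_commutatorElement, ← commutatorElement_eq_one_iff_commute, ← map_commutatorElement]
    exact (QuotientGroup.eq_one_iff _).2 ⟨⁅b, e⁆, comm_mem _ _, 1, hone, by simp⟩
  have h2 : Commute (π e) ⁅π b, π e⁆ := by
    rw [← map_commutatorElement, ← commutatorElement_eq_one_iff_commute, ← map_commutatorElement]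
    exact (QuotientGroup.eq_one_iff _).2 ⟨1, hone, ⁅b, e⁆, comm_mem _ _, by simp⟩
  have h3 : π (⁅b ^ r, e ^ s⁆⁻¹ * ⁅b ^ p, e ^ q⁆) = 1 := by
    rw [map_mul, map_inv, map_commutatorElement, map_commutatorElement, map_zpow, map_zpow,
      map_zpow, map_zpow, nil_two h1 h2, nil_two h1 h2, h, inv_mul_cancel]
  obtain ⟨u, hu, v, hv, huv⟩ := (QuotientGroup.eq_one_iff _).1 h3
  refine ⟨u, hu, v, hv, ?_⟩
  rw [mul_assoc, ← huv]; group

theorem complete_int (b : Q) {n : Q} (hn : n ∈ commutator Q) (p : ℤ) :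
    ∃ w, ⁅b ^ p, n⁆ = ⁅b, w⁆ := by
  have : (relSub hQ b 1).Normal := relSub_normal hQ b 1
  let π := QuotientGroup.mk' (relSub hQ b 1)
  have hone : (1 : Q) ∈ commutator Q := (commutator Q).one_mem
  have h1 : Commute (π b) (π n) := by
    rw [← commutatorElement_eq_one_iff_commute, ← map_commutatorElement]
    exact (QuotientGroup.eq_one_iff _).2 ⟨n, hn, 1, hone, by simp⟩
  have h2 : π ⁅b ^ p, n⁆ = 1 := by
    rw [map_commutatorElement, map_zpow, commutatorElement_eq_one_iff_commute]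
    exact h1.zpow_left p
  obtain ⟨u, _, v, _, huv⟩ := (QuotientGroup.eq_one_iff _).1 h2
  exact ⟨u, by rw [huv]; simp⟩

end gen

/-! ### The standard tuple in `G` -/

theorem E_ne_zero (i : Fin 6) : E i ≠ 0 := by
  intro h
  have := congrFun h i
  simp at this

theorem one_ne_zero_R : (1 : R H0) ≠ 0 := by
  intro h
  have := congrArg aug h
  simp at this

theorem T_mul_ne_zero {h : H0} (hh : h ≠ 0) {f : R H0} (hf : f ≠ 0) : (T h - 1) * f ≠ 0 :=
  fun h0 => hf (T_cancel hh h0)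

theorem base_gen : Base (x 0) (x 1) (x 2) (x 3) (x 4) (x 5) := by
  refine ⟨?_, ?_, ?_, ?_, ?_, ?_⟩
  · exact commutatorElement_eq_one_iff_mul_comm.2 (gen_comm adj01)
  · exact commutatorElement_eq_one_iff_mul_comm.2 (gen_comm adj12)
  · exact commutatorElement_eq_one_iff_mul_comm.2 (gen_comm adj34)
  · exact commutatorElement_eq_one_iff_mul_comm.2 (gen_comm adj45)
  · intro h
    have h1 := congrArg Aff.f (congrArg ψ₁ h)
    rw [map_commutatorElement, Aff.comm_f, map_commutatorElement, Aff.comm_h, T_zero, sub_self,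
      zero_mul, sub_zero, Aff.comm_f, map_commutatorElement, Aff.comm_h, T_zero, sub_self,
      zero_mul, sub_zero, Aff.comm_f, map_one, Aff.one_f, ψ₁_x, ψ₁_x, ψ₁_x] at h1
    have g1 : (img1 4).h = E 4 := by simp [img1]
    have g2 : (img1 0).h = E 0 := by simp [img1]
    have g3 : (img1 2).h = E 2 := by simp [img1]
    have g4 : (img1 2).f = 0 := by simp [img1]
    have g5 : (img1 0).f = T (E 0) - 1 := by simp [img1]
    rw [g1, g2, g3, g4, g5, mul_zero, zero_sub, mul_neg, mul_neg, neg_eq_zero] at h1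
    have h2 : (T (E 0) - 1 : R H0) ≠ 0 := by
      have := T_mul_ne_zero (E_ne_zero 0) one_ne_zero_R
      rwa [mul_one] at this
    exact T_mul_ne_zero (E_ne_zero 4) (T_mul_ne_zero (E_ne_zero 0)
      (T_mul_ne_zero (E_ne_zero 2) h2)) h1
  · intro h
    have h1 := congrArg Aff.f (congrArg ψ₂ h)
    rw [map_commutatorElement, Aff.comm_f, map_commutatorElement, Aff.comm_h, T_zero, sub_self,
      zero_mul, sub_zero, Aff.comm_f, map_commutatorElement, Aff.comm_h, T_zero, sub_self,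
      zero_mul, sub_zero, Aff.comm_f, map_one, Aff.one_f, ψ₂_x, ψ₂_x, ψ₂_x] at h1
    have g1 : (img2 1).h = E 1 := by simp [img2]
    have g2 : (img2 3).h = E 3 := by simp [img2]
    have g3 : (img2 5).h = E 5 := by simp [img2]
    have g4 : (img2 5).f = 0 := by simp [img2]
    have g5 : (img2 3).f = T (E 3) - 1 := by simp [img2]
    rw [g1, g2, g3, g4, g5, mul_zero, zero_sub, mul_neg, mul_neg, neg_eq_zero] at h1
    have h2 : (T (E 3) - 1 : R H0) ≠ 0 := by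
      have := T_mul_ne_zero (E_ne_zero 3) one_ne_zero_R
      rwa [mul_one] at this
    exact T_mul_ne_zero (E_ne_zero 1) (T_mul_ne_zero (E_ne_zero 3)
      (T_mul_ne_zero (E_ne_zero 5) h2)) h1

theorem good_gen (ζ : ℤ) :
    ∃ u v w, Good (x 0) (x 1) (x 4) (x 1 ^ ζ) (x 4 ^ ζ) u v w := by
  obtain ⟨w, hw⟩ := complete_int derived_two (x 1) (comm_mem (x 0) (x 4)) ζ
  obtain ⟨u, hu, v, hv, huv⟩ := complete_rel derived_two (x 1) (x 4) (p := ζ) (q := 1) (r := 1)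
    (s := ζ) (by ring)
  rw [zpow_one, zpow_one] at huv
  refine ⟨u, v, w, hw, ?_, ?_, huv⟩
  · exact commutatorElement_eq_one_iff_mul_comm.2 (G_comm hu (comm_mem _ _))
  · exact commutatorElement_eq_one_iff_mul_comm.2 (G_comm hv (comm_mem _ _))

theorem mulRel_gen {ζ η θ : ℤ} (h : ζ * η = θ) :
    ∃ u v, MulRel (x 1) (x 4) (x 1 ^ ζ) (x 4 ^ η) (x 1 ^ θ) u v := by
  obtain ⟨u, hu, v, hv, huv⟩ := complete_rel derived_two (x 1) (x 4) (p := ζ) (q := η) (r := θ)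
    (s := 1) (by rw [h, mul_one])
  rw [zpow_one] at huv
  refine ⟨u, v, ?_, ?_, huv⟩
  · exact commutatorElement_eq_one_iff_mul_comm.2 (G_comm hu (comm_mem _ _))
  · exact commutatorElement_eq_one_iff_mul_comm.2 (G_comm hv (comm_mem _ _))

end Pool.Agent.LibPCM
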