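import Mathlib
import Pool.Agent.LibMRDP.Partrec

set_option autoImplicit false

/-!
Integer polynomial expressions and an undecidable family of solvability questions over the
integers.
-/

namespace Pool.Agent.LibPCM

/-- Integer polynomial expressions. -/
inductive PE where
  | var : ℕ → PE
  | one : PE
  | sub : PE → PE → PE
  | mul : PE → PE → PE
deriving Countable

/-- value of an expression -/
def PE.eval (z : ℕ → ℤ) : PE → ℤ
  | PE.var n => z n
  | PE.one => 1
  | PE.sub s t => s.eval z - t.eval z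
  | PE.mul s t => s.eval z * t.eval z

theorem PE.exists_add (s t : PE) : ∃ E : PE, ∀ z, E.eval z = s.eval z + t.eval z :=
  ⟨PE.sub s (PE.sub (PE.sub PE.one PE.one) t), fun z => by simp [PE.eval]⟩

theorem PE.exists_const (n : ℤ) : ∃ E : PE, ∀ z, E.eval z = n := by
  have h0 : ∃ E : PE, ∀ z, E.eval z = (0 : ℤ) := ⟨PE.sub PE.one PE.one, fun z => by simp [PE.eval]⟩
  induction n using Int.induction_on with
  | zero => exact h0
  | succ n ih =>
    obtain ⟨E, hE⟩ := ih
    obtain ⟨F, hF⟩ := PE.exists_add E PE.one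
    exact ⟨F, fun z => by rw [hF, hE]; rfl⟩
  | pred n ih =>
    obtain ⟨E, hE⟩ := ih
    exact ⟨PE.sub E PE.one, fun z => by rw [PE.eval, hE]; rfl⟩

/-- the integer coordinates used for the natural variable `i` -/
def natOf (z : ℕ → ℤ) (i : ℕ) : ℤ :=
  match i with
  | 0 => z 0
  | i + 1 => z (4 * i + 1) ^ 2 + z (4 * i + 2) ^ 2 + z (4 * i + 3) ^ 2 + z (4 * i + 4) ^ 2

theorem PE.exists_natOf (i : ℕ) : ∃ E : PE, ∀ z, E.eval z = natOf z i := by
  cases i with
  | zero => exact ⟨PE.var 0, fun z => rfl⟩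
  | succ i =>
    obtain ⟨E1, h1⟩ := PE.exists_add (PE.mul (PE.var (4 * i + 1)) (PE.var (4 * i + 1)))
      (PE.mul (PE.var (4 * i + 2)) (PE.var (4 * i + 2)))
    obtain ⟨E2, h2⟩ := PE.exists_add E1 (PE.mul (PE.var (4 * i + 3)) (PE.var (4 * i + 3)))
    obtain ⟨E3, h3⟩ := PE.exists_add E2 (PE.mul (PE.var (4 * i + 4)) (PE.var (4 * i + 4)))
    refine ⟨E3, fun z => ?_⟩
    rw [h3, h2, h1]
    simp only [PE.eval, natOf]
    ring

theorem PE.exists_poly {f : (ℕ → ℕ) → ℤ} (hf : IsPoly f) :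
    ∃ E : PE, ∀ (z : ℕ → ℤ) (x : ℕ → ℕ), (∀ i, natOf z i = x i) → E.eval z = f x := by
  induction hf with
  | proj i =>
    obtain ⟨E, hE⟩ := PE.exists_natOf i
    exact ⟨E, fun z x h => by rw [hE, h]⟩
  | const n =>
    obtain ⟨E, hE⟩ := PE.exists_const n
    exact ⟨E, fun z x _ => hE z⟩
  | sub hf hg ihf ihg =>
    obtain ⟨E, hE⟩ := ihf
    obtain ⟨F, hF⟩ := ihg
    exact ⟨PE.sub E F, fun z x h => by rw [PE.eval, hE z x h, hF z x h]⟩
  | mul hf hg ihf ihg =>
    obtain ⟨E, hE⟩ := ihf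
    obtain ⟨F, hF⟩ := ihg
    exact ⟨PE.mul E F, fun z x h => by rw [PE.eval, hE z x h, hF z x h]⟩

theorem exists_z (x : ℕ → ℕ) : ∃ z : ℕ → ℤ, z 0 = x 0 ∧ ∀ i, natOf z i = x i := by
  choose a b c d h using fun i : ℕ => Nat.sum_four_squares (x i)
  let z : ℕ → ℤ := fun j => if j = 0 then (x 0 : ℤ) else
    if j % 4 = 1 then (a ((j + 3) / 4) : ℤ) else if j % 4 = 2 then (b ((j + 3) / 4) : ℤ) else
    if j % 4 = 3 then (c ((j + 3) / 4) : ℤ) else (d ((j + 3) / 4) : ℤ)
  refine ⟨z, by simp [z], ?_⟩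
  intro i
  cases i with
  | zero => simp [natOf, z]
  | succ i =>
    have e1 : z (4 * i + 1) = a (i + 1) := by
      have h1 : (4 * i + 1) % 4 = 1 := by omega
      have h2 : (4 * i + 1 + 3) / 4 = i + 1 := by omega
      simp only [z, h1, h2]; simp
    have e2 : z (4 * i + 2) = b (i + 1) := by
      have h1 : (4 * i + 2) % 4 = 2 := by omega
      have h2 : (4 * i + 2 + 3) / 4 = i + 1 := by omega
      simp only [z, h1, h2]; simp
    have e3 : z (4 * i + 3) = c (i + 1) := by
      have h1 : (4 * i + 3) % 4 = 3 := by omega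
      have h2 : (4 * i + 3 + 3) / 4 = i + 1 := by omega
      simp only [z, h1, h2]; simp
    have e4 : z (4 * i + 4) = d (i + 1) := by
      have h1 : (4 * i + 4) % 4 = 0 := by omega
      have h2 : (4 * i + 4 + 3) / 4 = i + 1 := by omega
      simp only [z, h1, h2]; simp
    simp only [natOf, e1, e2, e3, e4]
    exact_mod_cast h (i + 1)

/-- An integer polynomial expression whose solvability, as a function of the value of the
variable `0`, is not decidable. -/
theorem exists_undecidable_PE :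
    ∃ E : PE, ¬ ComputablePred fun a : ℕ => ∃ z : ℕ → ℤ, z 0 = a ∧ E.eval z = 0 := by
  obtain ⟨p, hp⟩ := Pool.Agent.LibMRDP.exists_undecidable_poly
  obtain ⟨E, hE⟩ := PE.exists_poly p.isPoly
  refine ⟨E, fun h => hp (h.of_eq fun a => ?_)⟩
  constructor
  · rintro ⟨z, h0, hz⟩
    refine ⟨fun i => (natOf z i).toNat, ?_, ?_⟩
    · simp [natOf, h0]
    · rw [← hz]
      symm
      apply hE
      intro i
      rw [Int.toNat_of_nonneg]
      cases i with
      | zero => rw [natOf, h0]; positivity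
      | succ i => rw [natOf]; positivity
  · rintro ⟨x, h0, hx⟩
    obtain ⟨z, hz0, hz⟩ := exists_z x
    refine ⟨z, by rw [hz0, h0], ?_⟩
    rw [hE z x hz]
    exact hx

end Pool.Agent.LibPCM
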