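import Mathlib
import Pool.Agent.LibPCM.PE
import Pool.Agent.LibPCM.Complete

set_option autoImplicit false

/-!
Undecidability of the universal theory of the partially commutative metabelian group of the
disjoint union of two paths with three vertices.
-/

namespace Pool.Agent.LibPCM

open scoped commutatorElement

/-! ### The semantic encoding -/

/-- local condition at a node -/
def Rel (B : Fin 6 → G) (N : PE → Fin 7 → G) : PE → Prop
  | PE.var _ => True
  | PE.one => N PE.one 0 = B 1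
  | PE.sub s t => N s 0 = N (PE.sub s t) 0 * N t 0
  | PE.mul s t => MulRel (B 1) (B 4) (N s 0) (N t 1) (N (PE.mul s t) 0)
      (N (PE.mul s t) 5) (N (PE.mul s t) 6)

/-- the variables of a node are good -/
def NGood (B : Fin 6 → G) (N : PE → Fin 7 → G) (E : PE) : Prop :=
  Good (B 0) (B 1) (B 4) (N E 0) (N E 1) (N E 2) (N E 3) (N E 4)

/-- all conditions for the nodes of an expression -/
def Nodes (B : Fin 6 → G) (N : PE → Fin 7 → G) : PE → Prop
  | PE.var n => NGood B N (PE.var n) ∧ Rel B N (PE.var n)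
  | PE.one => NGood B N PE.one ∧ Rel B N PE.one
  | PE.sub s t => (NGood B N (PE.sub s t) ∧ Rel B N (PE.sub s t)) ∧ Nodes B N s ∧ Nodes B N t
  | PE.mul s t => (NGood B N (PE.mul s t) ∧ Rel B N (PE.mul s t)) ∧ Nodes B N s ∧ Nodes B N t

/-- the whole system -/
def Sys (B : Fin 6 → G) (N : PE → Fin 7 → G) (E : PE) : Prop :=
  Base (B 0) (B 1) (B 2) (B 3) (B 4) (B 5) ∧ NGood B N (PE.var 0) ∧ Nodes B N E ∧ N E 0 = 1

theorem Good.map (σ : G →* G) {a b e X Y u v w : G} (h : Good a b e X Y u v w) :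
    Good (σ a) (σ b) (σ e) (σ X) (σ Y) (σ u) (σ v) (σ w) := by
  obtain ⟨h1, h2, h3, h4⟩ := h
  refine ⟨?_, ?_, ?_, ?_⟩
  · simpa only [map_commutatorElement, map_one, map_mul] using congrArg σ h1
  · simpa only [map_commutatorElement, map_one, map_mul] using congrArg σ h2
  · simpa only [map_commutatorElement, map_one, map_mul] using congrArg σ h3
  · simpa only [map_commutatorElement, map_one, map_mul] using congrArg σ h4

theorem MulRel.map (σ : G →* G) {b e X Y Z u v : G} (h : MulRel b e X Y Z u v) :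
    MulRel (σ b) (σ e) (σ X) (σ Y) (σ Z) (σ u) (σ v) := by
  obtain ⟨h1, h2, h3⟩ := h
  refine ⟨?_, ?_, ?_⟩
  · simpa only [map_commutatorElement, map_one, map_mul] using congrArg σ h1
  · simpa only [map_commutatorElement, map_one, map_mul] using congrArg σ h2
  · simpa only [map_commutatorElement, map_one, map_mul] using congrArg σ h3

theorem Rel.map (σ : G →* G) {B : Fin 6 → G} {N : PE → Fin 7 → G} {E : PE} (h : Rel B N E) :
    Rel (fun i => σ (B i)) (fun F k => σ (N F k)) E := by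
  cases E with
  | var n => trivial
  | one => exact congrArg σ h
  | sub s t =>
    show σ _ = σ _ * σ _
    rw [← map_mul]
    exact congrArg σ h
  | mul s t => exact MulRel.map σ h

theorem Nodes.map (σ : G →* G) {B : Fin 6 → G} {N : PE → Fin 7 → G} {E : PE}
    (h : Nodes B N E) : Nodes (fun i => σ (B i)) (fun F k => σ (N F k)) E := by
  induction E with
  | var n => exact ⟨Good.map σ h.1, Rel.map σ h.2⟩
  | one => exact ⟨Good.map σ h.1, Rel.map σ h.2⟩
  | sub s t ihs iht => exact ⟨⟨Good.map σ h.1.1, Rel.map σ h.1.2⟩, ihs h.2.1, iht h.2.2⟩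
  | mul s t ihs iht => exact ⟨⟨Good.map σ h.1.1, Rel.map σ h.1.2⟩, ihs h.2.1, iht h.2.2⟩

theorem Nodes.good {B : Fin 6 → G} {N : PE → Fin 7 → G} {E : PE} (h : Nodes B N E) :
    NGood B N E := by
  cases E with
  | var n => exact h.1
  | one => exact h.1
  | sub s t => exact h.1.1
  | mul s t => exact h.1.1

theorem nodes_sound {B : Fin 6 → G} {N : PE → Fin 7 → G} {m m' : ℤ}
    (hs : Std (B 0) (B 1) (B 3) (B 4) m m') {z : ℕ → ℤ}
    (hz : ∀ n, (∃ ζ : ℤ, kap (N (PE.var n) 0) = ζ • kap (B 1)) →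
      kap (N (PE.var n) 0) = z n • kap (B 1)) (E : PE) (h : Nodes B N E) :
    kap (N E 0) = E.eval z • kap (B 1) ∧ kap (N E 1) 4 = m' * E.eval z := by
  obtain ⟨ζ, h1, h2⟩ := hs.good h.good
  suffices hE : E.eval z = ζ by rw [hE]; exact ⟨h1, h2⟩
  induction E generalizing ζ with
  | var n =>
    have h3 := hz n ⟨ζ, h1⟩
    rw [h1] at h3
    exact (hs.inj h3).symm
  | one =>
    have h3 : N PE.one 0 = B 1 := h.2
    rw [h3] at h1
    apply hs.inj
    rw [← h1, PE.eval, one_smul]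
  | sub s t ihs iht =>
    obtain ⟨⟨hg, hr⟩, hs', ht'⟩ := h
    obtain ⟨ζ1, k1, k2⟩ := hs.good hs'.good
    obtain ⟨ζ2, l1, l2⟩ := hs.good ht'.good
    have e1 := ihs hs' ζ1 k1 k2
    have e2 := iht ht' ζ2 l1 l2
    have h3 : N s 0 = N (PE.sub s t) 0 * N t 0 := hr
    have h4 := congrArg kap h3
    rw [kap_mul, k1, l1, h1, ← add_smul] at h4
    have h5 := hs.inj h4
    rw [PE.eval, e1, e2, h5]
    ring
  | mul s t ihs iht =>
    obtain ⟨⟨hg, hr⟩, hs', ht'⟩ := h
    obtain ⟨ζ1, k1, k2⟩ := hs.good hs'.good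
    obtain ⟨ζ2, l1, l2⟩ := hs.good ht'.good
    have e1 := ihs hs' ζ1 k1 k2
    have e2 := iht ht' ζ2 l1 l2
    rw [PE.eval, e1, e2]
    exact hs.mulRel k1 l2 h1 hr

theorem sys_sound_std {B : Fin 6 → G} {N : PE → Fin 7 → G} {m m' : ℤ} {E : PE} {a : ℕ}
    (hs : Std (B 0) (B 1) (B 3) (B 4) m m') (h0 : NGood B N (PE.var 0)) (hN : Nodes B N E)
    (h1 : N E 0 = 1) (ha : N (PE.var 0) 0 = B 1 ^ a) :
    ∃ z : ℕ → ℤ, z 0 = a ∧ E.eval z = 0 := by
  classical
  let z : ℕ → ℤ := fun n => if h : ∃ ζ : ℤ, kap (N (PE.var n) 0) = ζ • kap (B 1)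
    then h.choose else 0
  have hz : ∀ n, (∃ ζ : ℤ, kap (N (PE.var n) 0) = ζ • kap (B 1)) →
      kap (N (PE.var n) 0) = z n • kap (B 1) := by
    intro n hn
    simp only [z, dif_pos hn]
    exact hn.choose_spec
  refine ⟨z, ?_, ?_⟩
  · obtain ⟨ζ, k1, _⟩ := hs.good h0
    have k2 := hz 0 ⟨ζ, k1⟩
    rw [ha, ← zpow_natCast, kap_zpow] at k2
    exact (hs.inj k2).symm
  · have := (nodes_sound hs hz E hN).1
    rw [h1, kap_one] at this
    apply hs.inj
    rw [← this, zero_smul]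

theorem sys_sound {B : Fin 6 → G} {N : PE → Fin 7 → G} {E : PE} {a : ℕ}
    (h : Sys B N E) (ha : N (PE.var 0) 0 = B 1 ^ a) :
    ∃ z : ℕ → ℤ, z 0 = a ∧ E.eval z = 0 := by
  obtain ⟨hb, h0, hN, h1⟩ := h
  rcases hb.std with ⟨m, m', hs⟩ | ⟨m, m', hs⟩
  · exact sys_sound_std hs h0 hN h1 ha
  · refine sys_sound_std (B := fun i => sw (B i)) (N := fun F k => sw (N F k)) hs
      (Good.map sw h0) (Nodes.map sw hN) ?_ ?_
    · show sw (N E 0) = 1
      rw [h1, map_one]
    · show sw (N (PE.var 0) 0) = sw (B 1) ^ a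
      rw [ha, map_pow]

theorem sys_complete {E : PE} {a : ℕ} {z : ℕ → ℤ} (h0 : z 0 = a) (hz : E.eval z = 0) :
    ∃ (B : Fin 6 → G) (N : PE → Fin 7 → G), Sys B N E ∧ N (PE.var 0) 0 = B 1 ^ a := by
  choose u v w hg using good_gen
  choose u' v' hm using fun p q : ℤ => mulRel_gen (ζ := p) (η := q) rfl
  let M : PE → G × G := fun F => match F with
    | PE.mul s t => (u' (s.eval z) (t.eval z), v' (s.eval z) (t.eval z))
    | _ => (1, 1)
  let N : PE → Fin 7 → G := fun F => ![x 1 ^ F.eval z, x 4 ^ F.eval z, u (F.eval z),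
    v (F.eval z), w (F.eval z), (M F).1, (M F).2]
  have hgood : ∀ F, NGood x N F := fun F => hg (F.eval z)
  have hrel : ∀ F, Rel x N F := by
    intro F
    cases F with
    | var n => trivial
    | one =>
      show x 1 ^ (PE.one.eval z) = x 1
      rw [PE.eval, zpow_one]
    | sub s t =>
      show x 1 ^ (s.eval z) = x 1 ^ ((PE.sub s t).eval z) * x 1 ^ (t.eval z)
      rw [← zpow_add, PE.eval, sub_add_cancel]
    | mul s t => exact hm (s.eval z) (t.eval z)
  have hnodes : ∀ F, Nodes x N F := by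
    intro F
    induction F with
    | var n => exact ⟨hgood _, hrel _⟩
    | one => exact ⟨hgood _, hrel _⟩
    | sub s t ihs iht => exact ⟨⟨hgood _, hrel _⟩, ihs, iht⟩
    | mul s t ihs iht => exact ⟨⟨hgood _, hrel _⟩, ihs, iht⟩
  refine ⟨x, N, ⟨base_gen, hgood _, hnodes E, ?_⟩, ?_⟩
  · show x 1 ^ (E.eval z) = 1
    rw [hz, zpow_zero]
  · show x 1 ^ ((PE.var 0).eval z) = x 1 ^ a
    rw [PE.eval, h0, zpow_natCast]

/-! ### The syntactic encoding -/

/-- numbering of the variables -/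
theorem exists_vi : ∃ f : Fin 6 ⊕ (PE × Fin 7) → ℕ, Function.Injective f :=
  exists_injective_nat _

/-- the number of a variable -/
noncomputable def vi : Fin 6 ⊕ (PE × Fin 7) → ℕ := exists_vi.choose

theorem vi_injective : Function.Injective vi := exists_vi.choose_spec

/-- base part of an assignment -/
noncomputable def bp (v : ℕ → G) : Fin 6 → G := fun i => v (vi (Sum.inl i))

/-- node part of an assignment -/
noncomputable def np (v : ℕ → G) : PE → Fin 7 → G := fun E k => v (vi (Sum.inr (E, k)))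

theorem exists_assignment (B : Fin 6 → G) (N : PE → Fin 7 → G) :
    ∃ v : ℕ → G, bp v = B ∧ np v = N := by
  refine ⟨Function.extend vi (Sum.elim B fun p => N p.1 p.2) fun _ => 1, ?_, ?_⟩
  · funext i
    rw [bp, vi_injective.extend_apply]
    rfl
  · funext E k
    rw [np, vi_injective.extend_apply]
    rfl

/-- commutator of terms -/
def Term.comm (s t : Term) : Term := Term.mul (Term.mul (Term.mul s t) (Term.inv s)) (Term.inv t)

theorem Term.eval_comm (v : ℕ → G) (s t : Term) : (s.comm t).eval v = ⁅s.eval v, t.eval v⁆ := rfl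

/-- base variable -/
noncomputable def bv (i : Fin 6) : Term := Term.var (vi (Sum.inl i))

/-- node variable -/
noncomputable def nv (E : PE) (k : Fin 7) : Term := Term.var (vi (Sum.inr (E, k)))

theorem eval_bv (v : ℕ → G) (i : Fin 6) : (bv i).eval v = bp v i := rfl

theorem eval_nv (v : ℕ → G) (E : PE) (k : Fin 7) : (nv E k).eval v = np v E k := rfl

theorem ex_base : ∃ q : QF, ∀ v : ℕ → G, q.Holds v ↔
    Base (bp v 0) (bp v 1) (bp v 2) (bp v 3) (bp v 4) (bp v 5) :=
  ⟨QF.and (QF.eq ((bv 0).comm (bv 1)) Term.one) (QF.and (QF.eq ((bv 1).comm (bv 2)) Term.one)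
    (QF.and (QF.eq ((bv 3).comm (bv 4)) Term.one) (QF.and (QF.eq ((bv 4).comm (bv 5)) Term.one)
    (QF.and (QF.neg (QF.eq ((bv 4).comm ((bv 0).comm ((bv 0).comm (bv 2)))) Term.one))
    (QF.neg (QF.eq ((bv 1).comm ((bv 3).comm ((bv 3).comm (bv 5)))) Term.one)))))),
    fun _ => Iff.rfl⟩

theorem ex_good (E : PE) : ∃ q : QF, ∀ v : ℕ → G, q.Holds v ↔ NGood (bp v) (np v) E :=
  ⟨QF.and (QF.eq ((nv E 0).comm ((bv 0).comm (bv 4))) ((bv 1).comm (nv E 4)))
    (QF.and (QF.eq ((nv E 2).comm ((bv 1).comm (bv 4))) Term.one)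
    (QF.and (QF.eq ((nv E 3).comm ((bv 1).comm (bv 4))) Term.one)
    (QF.eq ((nv E 0).comm (bv 4)) (Term.mul (Term.mul ((bv 1).comm (nv E 1))
      ((bv 1).comm (nv E 2))) ((bv 4).comm (nv E 3)))))), fun _ => Iff.rfl⟩

theorem ex_rel (E : PE) : ∃ q : QF, ∀ v : ℕ → G, q.Holds v ↔ Rel (bp v) (np v) E := by
  cases E with
  | var n => exact ⟨QF.eq Term.one Term.one, fun v => ⟨fun _ => trivial, fun _ => rfl⟩⟩
  | one => exact ⟨QF.eq (nv PE.one 0) (bv 1), fun _ => Iff.rfl⟩
  | sub s t =>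
    exact ⟨QF.eq (nv s 0) (Term.mul (nv (PE.sub s t) 0) (nv t 0)), fun _ => Iff.rfl⟩
  | mul s t =>
    exact ⟨QF.and (QF.eq ((nv (PE.mul s t) 5).comm ((bv 1).comm (bv 4))) Term.one)
      (QF.and (QF.eq ((nv (PE.mul s t) 6).comm ((bv 1).comm (bv 4))) Term.one)
      (QF.eq ((nv s 0).comm (nv t 1)) (Term.mul (Term.mul ((nv (PE.mul s t) 0).comm (bv 4))
        ((bv 1).comm (nv (PE.mul s t) 5))) ((bv 4).comm (nv (PE.mul s t) 6))))),
      fun _ => Iff.rfl⟩

theorem ex_nodes (E : PE) : ∃ q : QF, ∀ v : ℕ → G, q.Holds v ↔ Nodes (bp v) (np v) E := by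
  induction E with
  | var n =>
    obtain ⟨q1, h1⟩ := ex_good (PE.var n)
    obtain ⟨q2, h2⟩ := ex_rel (PE.var n)
    exact ⟨QF.and q1 q2, fun v => and_congr (h1 v) (h2 v)⟩
  | one =>
    obtain ⟨q1, h1⟩ := ex_good PE.one
    obtain ⟨q2, h2⟩ := ex_rel PE.one
    exact ⟨QF.and q1 q2, fun v => and_congr (h1 v) (h2 v)⟩
  | sub s t ihs iht =>
    obtain ⟨q1, h1⟩ := ex_good (PE.sub s t)
    obtain ⟨q2, h2⟩ := ex_rel (PE.sub s t)
    obtain ⟨q3, h3⟩ := ihs
    obtain ⟨q4, h4⟩ := iht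
    exact ⟨QF.and (QF.and q1 q2) (QF.and q3 q4),
      fun v => and_congr (and_congr (h1 v) (h2 v)) (and_congr (h3 v) (h4 v))⟩
  | mul s t ihs iht =>
    obtain ⟨q1, h1⟩ := ex_good (PE.mul s t)
    obtain ⟨q2, h2⟩ := ex_rel (PE.mul s t)
    obtain ⟨q3, h3⟩ := ihs
    obtain ⟨q4, h4⟩ := iht
    exact ⟨QF.and (QF.and q1 q2) (QF.and q3 q4),
      fun v => and_congr (and_congr (h1 v) (h2 v)) (and_congr (h3 v) (h4 v))⟩

theorem ex_sys (E : PE) : ∃ q : QF, ∀ v : ℕ → G, q.Holds v ↔ Sys (bp v) (np v) E := by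
  obtain ⟨q1, h1⟩ := ex_base
  obtain ⟨q2, h2⟩ := ex_good (PE.var 0)
  obtain ⟨q3, h3⟩ := ex_nodes E
  exact ⟨QF.and q1 (QF.and q2 (QF.and q3 (QF.eq (nv E 0) Term.one))),
    fun v => and_congr (h1 v) (and_congr (h2 v) (and_congr (h3 v) Iff.rfl))⟩

/-- power of a term -/
def Term.pow (t : Term) : ℕ → Term
  | 0 => Term.one
  | n + 1 => Term.mul (t.pow n) t

theorem Term.eval_pow (v : ℕ → G) (t : Term) (n : ℕ) : (t.pow n).eval v = t.eval v ^ n := by
  induction n with
  | zero => rw [pow_zero]; rfl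
  | succ n ih => rw [pow_succ, ← ih]; rfl

theorem Term.primrec_pow (t : Term) : Primrec fun n => (t.pow n).code := by
  have h : Primrec fun n : ℕ => Nat.rec (motive := fun _ => ℕ) (Nat.pair 1 0)
      (fun _ c => Nat.pair 2 (Nat.pair c t.code)) n := by
    refine Primrec.nat_rec₁ (Nat.pair 1 0) ?_
    exact Primrec₂.natPair.comp (Primrec.const 2)
      (Primrec₂.natPair.comp Primrec.snd (Primrec.const t.code))
  refine h.of_eq fun n => ?_
  induction n with
  | zero => rfl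
  | succ n ih =>
    show Nat.pair 2 (Nat.pair _ _) = _
    rw [ih]
    rfl

theorem universal_theory_undecidable : ¬ UniversalTheoryDecidable (PCMetabelian twoPaths) := by
  rintro ⟨d, hd, hdec⟩
  obtain ⟨E, hE⟩ := exists_undecidable_PE
  obtain ⟨q, hq⟩ := ex_sys E
  let σ : ℕ → QF := fun a => QF.neg (QF.and (QF.eq (nv (PE.var 0) 0) ((bv 1).pow a)) q)
  have hσ : ∀ a : ℕ, UniversallyTrue G (σ a) ↔ ¬ ∃ z : ℕ → ℤ, z 0 = a ∧ E.eval z = 0 := by
    intro a
    constructor
    · rintro h ⟨z, h0, hz⟩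
      obtain ⟨B, N, hS, ha⟩ := sys_complete h0 hz
      obtain ⟨v, rfl, rfl⟩ := exists_assignment B N
      apply h v
      refine ⟨?_, (hq v).2 hS⟩
      show np v (PE.var 0) 0 = _
      rw [Term.eval_pow]
      exact ha
    · intro h v hv
      apply h
      obtain ⟨h1, h2⟩ := hv
      have h3 : np v (PE.var 0) 0 = _ := h1
      rw [Term.eval_pow] at h3
      exact sys_sound ((hq v).1 h2) h3
  have hcode : Primrec fun a => (σ a).code := by
    show Primrec fun a => Nat.pair 1 (Nat.pair 2 (Nat.pair (Nat.pair 0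
      (Nat.pair (nv (PE.var 0) 0).code ((bv 1).pow a).code)) q.code))
    exact Primrec₂.natPair.comp (Primrec.const 1) (Primrec₂.natPair.comp (Primrec.const 2)
      (Primrec₂.natPair.comp (Primrec₂.natPair.comp (Primrec.const 0)
        (Primrec₂.natPair.comp (Primrec.const _) (Term.primrec_pow (bv 1)))) (Primrec.const _)))
  apply hE
  refine ComputablePred.computable_iff.2 ⟨fun a => !(d (σ a).code), ?_, ?_⟩
  · exact Primrec.not.to_comp.comp (hd.comp hcode.to_comp)
  · funext a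
    apply propext
    have h1 := hdec (σ a)
    have h2 := hσ a
    show (∃ z : ℕ → ℤ, z 0 = a ∧ E.eval z = 0) ↔ (!(d (σ a).code)) = true
    rw [Bool.not_eq_true']
    constructor
    · intro h
      rw [← Bool.not_eq_true, h1]
      exact fun h3 => h2.1 h3 h
    · intro h
      by_contra h3
      have := h1.2 (h2.2 h3)
      rw [h] at this
      exact Bool.false_ne_true this

end Pool.Agent.LibPCM
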